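import Mathlib
import Pool.Agent.Helper278.DefsG

/-!
Definitions for the applications of the project KKS: separability, group measure space
construction, property (T), Jones index.
-/

set_option autoImplicit false
set_option linter.unusedSectionVars false

open scoped InnerProductSpace ENNReal
open Pool.Agent.Helper278 MeasureTheory

namespace Pool.Agent.W662.KKS

section

variable {H : Type} [NormedAddCommGroup H] [InnerProductSpace ℂ H] [CompleteSpace H]

/-- `(M, τ)` is separable: there is a sequence which is dense in `M` for the 2-norm. For a II₁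
factor this is equivalent to the separability of the predual. -/
def IsSep (M : VonNeumannAlgebra H) (τ : Elt M → ℂ) : Prop :=
  ∃ x : ℕ → Elt M, ∀ y : Elt M, ∀ ε : ℝ, 0 < ε → ∃ n, norm2 τ (y - x n) ≤ ε

/-- bounded measurable functions -/
def BM {X : Type} [MeasurableSpace X] (f : X → ℂ) : Prop := Measurable f ∧ ∃ C : ℝ, ∀ x, ‖f x‖ ≤ C

/-- `M` is the crossed product `L^∞(X, μ) ⋊ Γ` of a measure preserving action: it is generated by
a copy `π` of `L^∞(X, μ)` and a unitary representation `u` of `Γ` which implements the action, and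
the trace of `π(f) u(g)` is `∫ f dμ` for `g = 1` and zero otherwise. -/
structure IsGroupMeasureSpace (M : VonNeumannAlgebra H) (τ : Elt M → ℂ) (X : Type)
    [MeasurableSpace X] (μ : Measure X) (Γ : Type) [Group Γ] [MulAction Γ X]
    (π : (X → ℂ) → Elt M) (u : Γ → Elt M) : Prop where
  mp : ∀ g : Γ, MeasurePreserving (fun x : X => g • x) μ μ
  add : ∀ f g, BM f → BM g → π (fun x => f x + g x) = π f + π g
  mul : ∀ f g, BM f → BM g → π (fun x => f x * g x) = π f * π g
  smul : ∀ (c : ℂ) f, BM f → π (fun x => c * f x) = c • π f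
  conj : ∀ f, BM f → π (fun x => star (f x)) = star (π f)
  one : π (fun _ => 1) = 1
  u_one : u 1 = 1
  u_mul : ∀ g h, u (g * h) = u g * u h
  u_inv : ∀ g, u g⁻¹ = star (u g)
  cov : ∀ g f, BM f → u g * π f * star (u g) = π (fun x => f (g⁻¹ • x))
  trace : ∀ f g, BM f → (g = 1 → τ (π f * u g) = ∫ x, f x ∂μ) ∧ (g ≠ 1 → τ (π f * u g) = 0)
  gen : vnGen ({z : H →L[ℂ] H | ∃ f, BM f ∧ z = π f} ∪ {z : H →L[ℂ] H | ∃ g, z = u g}) = M

end

/-! ### property (T) -/

/-- the order of a star ring given by `z* z` -/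
def SLe {A : Type} [Ring A] [StarRing A] (x y : A) : Prop := ∃ z : A, y - x = star z * z

/-- `s` is the supremum of the set `D` of selfadjoint elements -/
def IsSup {A : Type} [Ring A] [StarRing A] (D : Set A) (s : A) : Prop :=
  (∀ x ∈ D, SLe x s) ∧ ∀ t : A, star t = t → (∀ x ∈ D, SLe x t) → SLe s t

/-- normal representations: they preserve suprema of increasing nets of selfadjoint elements. -/
def IsNormalRep {A : Type} [Ring A] [StarRing A] [Algebra ℂ A] {K : Type} [NormedAddCommGroup K]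
    [InnerProductSpace ℂ K] [CompleteSpace K] (L : A →⋆ₐ[ℂ] (K →L[ℂ] K)) : Prop :=
  ∀ (D : Set A) (s : A), D.Nonempty → (∀ x ∈ D, star x = x) → star s = s →
    (∀ x ∈ D, ∀ y ∈ D, ∃ z ∈ D, SLe x z ∧ SLe y z) → IsSup D s →
    ∀ ζ : K, IsLUB ((fun x => (⟪ζ, L x ζ⟫_ℂ).re) '' D) (⟪ζ, L s ζ⟫_ℂ).re

/-- Property (T) of Connes and Jones for a tracial von Neumann algebra `A`: for every `ε > 0` there
are a finite set `F` and `δ > 0` such that in every normal Hilbert `A`-`A`-bimodule `K`, given by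
commuting normal representations of `A` and of the opposite algebra, every unit vector `ξ` with
`‖x ξ - ξ x‖ < δ` for `x ∈ F` is within `ε` of a central vector. -/
def PropertyT (A : Type) [Ring A] [StarRing A] [Algebra ℂ A] : Prop :=
  ∀ ε : ℝ, 0 < ε → ∃ (F : Set A) (δ : ℝ), F.Finite ∧ 0 < δ ∧
    ∀ (K : Type) [NormedAddCommGroup K] [InnerProductSpace ℂ K] [CompleteSpace K]
      (L : A →⋆ₐ[ℂ] (K →L[ℂ] K)) (R : Aᵐᵒᵖ →⋆ₐ[ℂ] (K →L[ℂ] K)),
      IsNormalRep L → IsNormalRep R → (∀ x y, L x * R y = R y * L x) →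
      ∀ ξ : K, ‖ξ‖ = 1 → (∀ x ∈ F, ‖L x ξ - R (MulOpposite.op x) ξ‖ < δ) →
        ∃ η : K, (∀ x : A, L x η = R (MulOpposite.op x) η) ∧ ‖η - ξ‖ < ε

/-! ### the Jones index -/

section index

variable {H : Type} [NormedAddCommGroup H] [InnerProductSpace ℂ H] [CompleteSpace H]

/-- Vectors `ξ i` of the `N`-module `K` (through `π`) generating mutually orthogonal cyclic
`P`-modules `[P ξ i]` isomorphic to `L²(P) e i`, where `e i` is a projection of `P`. -/
structure PFam (N : VonNeumannAlgebra H) (σ : Elt N → ℂ) (P : VonNeumannAlgebra H) {K : Type}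
    [NormedAddCommGroup K] [InnerProductSpace ℂ K] [CompleteSpace K]
    (π : Elt N →⋆ₐ[ℂ] (K →L[ℂ] K)) {ι : Type} (ξ : ι → K) (e : ι → Elt N) : Prop where
  mem : ∀ i, (e i : H →L[ℂ] H) ∈ P
  isProj : ∀ i, star (e i) = e i ∧ e i * e i = e i
  state : ∀ i, ∀ x : Elt N, (x : H →L[ℂ] H) ∈ P → ⟪ξ i, π x (ξ i)⟫_ℂ = σ (x * e i)
  orth : ∀ i j, i ≠ j → ∀ x : Elt N, (x : H →L[ℂ] H) ∈ P → ⟪ξ i, π x (ξ j)⟫_ℂ = 0

/-- the von Neumann dimension of the `P`-module `K` -/
noncomputable def pDim (N : VonNeumannAlgebra H) (σ : Elt N → ℂ) (P : VonNeumannAlgebra H)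
    {K : Type} [NormedAddCommGroup K] [InnerProductSpace ℂ K] [CompleteSpace K]
    (π : Elt N →⋆ₐ[ℂ] (K →L[ℂ] K)) : ℝ≥0∞ :=
  ⨆ (n : ℕ) (ξ : Fin n → K) (e : Fin n → Elt N) (_ : PFam N σ P π ξ e),
    ∑ i, ENNReal.ofReal (σ (e i)).re

/-- `(K, π, Ω)` is the GNS representation `L²(N, σ)` -/
structure IsGNS (N : VonNeumannAlgebra H) (σ : Elt N → ℂ) {K : Type} [NormedAddCommGroup K]
    [InnerProductSpace ℂ K] [CompleteSpace K] (π : Elt N →⋆ₐ[ℂ] (K →L[ℂ] K)) (Ω : K) : Prop where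
  state : ∀ x : Elt N, ⟪Ω, π x Ω⟫_ℂ = σ x
  cyc : ∀ v : K, ∀ ε : ℝ, 0 < ε → ∃ x : Elt N, ‖v - π x Ω‖ ≤ ε

/-- `N` has a subfactor of index `d`: there is a von Neumann subalgebra `P` with trivial centre,
such that the von Neumann dimension of `L²(N, σ)` as a left `P`-module is `d`. -/
def HasSubfactorOfIndex (N : VonNeumannAlgebra H) (σ : Elt N → ℂ) (d : ℝ≥0∞) : Prop :=
  ∃ P : VonNeumannAlgebra H, (∀ x ∈ P, x ∈ N) ∧ HasTrivialCenter P ∧
    ∃ (K : Type) (_ : NormedAddCommGroup K) (_ : InnerProductSpace ℂ K) (_ : CompleteSpace K)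
      (π : Elt N →⋆ₐ[ℂ] (K →L[ℂ] K)) (Ω : K), IsGNS N σ π Ω ∧ pDim N σ P π = d

end index

/-! ### statements -/

/-- XP: crossed products are separable. -/
def S_XP : Prop := ∀ (H : Type) [NormedAddCommGroup H] [InnerProductSpace ℂ H] [CompleteSpace H]
  (M : VonNeumannAlgebra H) (τ : Elt M → ℂ), IsIIOneFactor M τ →
  ∀ (X : Type) [MeasurableSpace X] [StandardBorelSpace X] (μ : Measure X) [IsProbabilityMeasure μ]
    (Γ : Type) [Group Γ] [Countable Γ] [MulAction Γ X] (π : (X → ℂ) → Elt M) (u : Γ → Elt M),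
    IsGroupMeasureSpace M τ X μ Γ π u → IsSep M τ

/-- TISO: property (T) is invariant under star isomorphisms. -/
def S_TISO : Prop := ∀ (A B : Type) [Ring A] [StarRing A] [Algebra ℂ A] [Ring B] [StarRing B]
  [Algebra ℂ B], Nonempty (A ≃⋆ₐ[ℂ] B) → PropertyT A → PropertyT B

/-- IND: the existence of a subfactor of given index is invariant under star isomorphisms. -/
def S_IND : Prop := ∀ (H : Type) [NormedAddCommGroup H] [InnerProductSpace ℂ H] [CompleteSpace H]
  (M N : VonNeumannAlgebra H) (τ : Elt M → ℂ) (σ : Elt N → ℂ), IsIIOneFactor M τ →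
  IsIIOneFactor N σ → Nonempty (Elt M ≃⋆ₐ[ℂ] Elt N) → ∀ d : ℝ≥0∞,
  HasSubfactorOfIndex M τ d → HasSubfactorOfIndex N σ d

/-- TSEP: II₁ factors with property (T) are separable. -/
def S_TSEP : Prop := ∀ (H : Type) [NormedAddCommGroup H] [InnerProductSpace ℂ H]
  [CompleteSpace H] (M : VonNeumannAlgebra H) (τ : Elt M → ℂ), IsIIOneFactor M τ →
  PropertyT (Elt M) → IsSep M τ

end Pool.Agent.W662.KKS
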