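import Pool.Agent.W662.KKS.Defs2

/-!
Short forms for the statements of the main results of the project KKS.
-/

set_option autoImplicit false
set_option linter.unusedSectionVars false

open scoped InnerProductSpace
open Pool.Agent.Helper278

namespace Pool.Agent.W662.KKS

/-- `M` and `N` are star isomorphic -/
structure IsStarIso {H : Type} [NormedAddCommGroup H] [InnerProductSpace ℂ H] [CompleteSpace H]
    (M N : VonNeumannAlgebra H) (θ : (H →L[ℂ] H) → (H →L[ℂ] H)) : Prop where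
  bij : Set.BijOn θ M N
  add : ∀ x ∈ M, ∀ y ∈ M, θ (x + y) = θ x + θ y
  mul : ∀ x ∈ M, ∀ y ∈ M, θ (x * y) = θ x * θ y
  smul : ∀ (c : ℂ), ∀ x ∈ M, θ (c • x) = c • θ x
  star : ∀ x ∈ M, θ (star x) = star (θ x)

/-- `L` preserves suprema of upward directed sets of selfadjoint elements, for every vector
functional. -/
def IsNormalMap {A : Type} [Ring A] [StarRing A] {K : Type} [NormedAddCommGroup K]
    [InnerProductSpace ℂ K] (L : A → (K →L[ℂ] K)) : Prop :=
  ∀ (D : Set A) (s : A), D.Nonempty → (∀ x ∈ D, star x = x) → star s = s →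
    (∀ x ∈ D, ∀ y ∈ D, ∃ z ∈ D, SLe x z ∧ SLe y z) → IsSup D s →
    ∀ ζ : K, IsLUB ((fun x => (⟪ζ, L x ζ⟫_ℂ).re) '' D) (⟪ζ, L s ζ⟫_ℂ).re

/-- `K` is a normal Hilbert `A`-`A`-bimodule with left action `L` and right action `R`. -/
structure IsBimodule {A : Type} [Ring A] [StarRing A] [Algebra ℂ A] {K : Type}
    [NormedAddCommGroup K] [InnerProductSpace ℂ K] [CompleteSpace K]
    (L R : A → (K →L[ℂ] K)) : Prop where
  L_one : L 1 = 1
  L_add : ∀ x y, L (x + y) = L x + L y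
  L_smul : ∀ (c : ℂ) x, L (c • x) = c • L x
  L_mul : ∀ x y, L (x * y) = L x * L y
  L_star : ∀ x, L (star x) = star (L x)
  R_one : R 1 = 1
  R_add : ∀ x y, R (x + y) = R x + R y
  R_smul : ∀ (c : ℂ) x, R (c • x) = c • R x
  R_mul : ∀ x y, R (x * y) = R y * R x
  R_star : ∀ x, R (star x) = star (R x)
  comm : ∀ x y, L x * R y = R y * L x
  L_normal : IsNormalMap L
  R_normal : IsNormalMap R

/-- Property (T) of Connes and Jones: for every `ε > 0` there are a finite set `F` and `δ > 0` such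
that in every normal Hilbert bimodule every unit vector `ξ` with `‖x ξ - ξ x‖ < δ` for `x ∈ F` is
within `ε` of a central vector. -/
def HasPropertyT (A : Type) [Ring A] [StarRing A] [Algebra ℂ A] : Prop :=
  ∀ ε : ℝ, 0 < ε → ∃ (F : Set A) (δ : ℝ), F.Finite ∧ 0 < δ ∧
    ∀ (K : Type) [NormedAddCommGroup K] [InnerProductSpace ℂ K] [CompleteSpace K]
      (L R : A → (K →L[ℂ] K)), IsBimodule L R →
      ∀ ξ : K, ‖ξ‖ = 1 → (∀ x ∈ F, ‖L x ξ - R x ξ‖ < δ) →
        ∃ η : K, (∀ x : A, L x η = R x η) ∧ ‖η - ξ‖ < ε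

/-- the von Neumann algebra `M` has property (T) -/
def HasT {H : Type} [NormedAddCommGroup H] [InnerProductSpace ℂ H] [CompleteSpace H]
    (M : VonNeumannAlgebra H) : Prop := HasPropertyT (Elt M)

section iso

variable {A B : Type} [Ring A] [StarRing A] [Algebra ℂ A] [Ring B] [StarRing B] [Algebra ℂ B]

theorem SLe.map (e : A ≃⋆ₐ[ℂ] B) {x y : A} (h : SLe x y) : SLe (e x) (e y) := by
  obtain ⟨z, hz⟩ := h
  exact ⟨e z, by rw [← map_sub, hz, map_mul, map_star]⟩

theorem IsSup.map (e : A ≃⋆ₐ[ℂ] B) {D : Set A} {s : A} (h : IsSup D s) :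
    IsSup (e '' D) (e s) := by
  refine ⟨?_, ?_⟩
  · rintro _ ⟨x, hx, rfl⟩
    exact (h.1 x hx).map e
  · intro t ht hle
    have h1 : SLe s (e.symm t) := by
      refine h.2 _ (by rw [← map_star, ht]) ?_
      intro x hx
      have := (hle (e x) ⟨x, hx, rfl⟩).map e.symm
      rwa [StarAlgEquiv.symm_apply_apply] at this
    have := h1.map e
    rwa [StarAlgEquiv.apply_symm_apply] at this

theorem IsNormalMap.comp (e : A ≃⋆ₐ[ℂ] B) {K : Type} [NormedAddCommGroup K]
    [InnerProductSpace ℂ K] {L : B → (K →L[ℂ] K)} (h : IsNormalMap L) :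
    IsNormalMap (fun x : A => L (e x)) := by
  intro D s hD hs hss hdir hsup ζ
  have := h (e '' D) (e s) (hD.image _) (by
      rintro _ ⟨x, hx, rfl⟩
      rw [← map_star, hs x hx]) (by rw [← map_star, hss]) (by
      rintro _ ⟨x, hx, rfl⟩ _ ⟨y, hy, rfl⟩
      obtain ⟨z, hz, h1, h2⟩ := hdir x hx y hy
      exact ⟨e z, ⟨z, hz, rfl⟩, h1.map e, h2.map e⟩) (hsup.map e) ζ
  rw [Set.image_image] at this
  exact this

theorem HasPropertyT.iso (e : A ≃⋆ₐ[ℂ] B) (h : HasPropertyT A) : HasPropertyT B := by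
  intro ε hε
  obtain ⟨F, δ, hF, hδ, hp⟩ := h ε hε
  refine ⟨e '' F, δ, hF.image _, hδ, ?_⟩
  intro K _ _ _ L R hLR ξ hξ hclose
  have hb : IsBimodule (fun x : A => L (e x)) (fun x : A => R (e x)) := by
    refine ⟨?_, ?_, ?_, ?_, ?_, ?_, ?_, ?_, ?_, ?_, ?_, hLR.L_normal.comp e,
      hLR.R_normal.comp e⟩
    · show L (e 1) = 1
      rw [map_one, hLR.L_one]
    · intro x y
      show L (e (x + y)) = L (e x) + L (e y)
      rw [map_add, hLR.L_add]
    · intro c x
      show L (e (c • x)) = c • L (e x)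
      rw [map_smul, hLR.L_smul]
    · intro x y
      show L (e (x * y)) = L (e x) * L (e y)
      rw [map_mul, hLR.L_mul]
    · intro x
      show L (e (star x)) = star (L (e x))
      rw [map_star, hLR.L_star]
    · show R (e 1) = 1
      rw [map_one, hLR.R_one]
    · intro x y
      show R (e (x + y)) = R (e x) + R (e y)
      rw [map_add, hLR.R_add]
    · intro c x
      show R (e (c • x)) = c • R (e x)
      rw [map_smul, hLR.R_smul]
    · intro x y
      show R (e (x * y)) = R (e y) * R (e x)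
      rw [map_mul, hLR.R_mul]
    · intro x
      show R (e (star x)) = star (R (e x))
      rw [map_star, hLR.R_star]
    · intro x y
      exact hLR.comm _ _
  obtain ⟨η, h1, h2⟩ := hp K _ _ hb ξ hξ (fun x hx => hclose _ ⟨x, hx, rfl⟩)
  refine ⟨η, fun y => ?_, h2⟩
  have := h1 (e.symm y)
  simp only [StarAlgEquiv.apply_symm_apply] at this
  exact this

end iso

theorem isStarIso_of {H : Type} [NormedAddCommGroup H] [InnerProductSpace ℂ H] [CompleteSpace H]
    {M N : VonNeumannAlgebra H} (h : Nonempty (Elt M ≃⋆ₐ[ℂ] Elt N)) : ∃ θ, IsStarIso M N θ := by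
  classical
  obtain ⟨e⟩ := h
  let θ : (H →L[ℂ] H) → (H →L[ℂ] H) := fun x =>
    if hx : x ∈ M then (e ⟨x, hx⟩ : H →L[ℂ] H) else 0
  have hθ : ∀ x (hx : x ∈ M), θ x = (e ⟨x, hx⟩ : H →L[ℂ] H) := fun x hx => by
    simp only [θ, dif_pos hx]
  refine ⟨θ, ⟨⟨?_, ?_, ?_⟩, ?_, ?_, ?_, ?_⟩⟩
  · intro x hx
    rw [hθ x hx]
    exact (e ⟨x, hx⟩).2
  · intro x hx y hy hxy
    rw [hθ x hx, hθ y hy] at hxy
    have := e.injective (Subtype.ext hxy)
    exact congrArg Subtype.val this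
  · intro y hy
    refine ⟨(e.symm ⟨y, hy⟩ : H →L[ℂ] H), (e.symm ⟨y, hy⟩).2, ?_⟩
    rw [hθ _ (e.symm ⟨y, hy⟩).2]
    have : e (e.symm ⟨y, hy⟩) = ⟨y, hy⟩ := e.apply_symm_apply _
    exact congrArg Subtype.val this
  · intro x hx y hy
    rw [hθ x hx, hθ y hy, hθ _ (add_mem hx hy)]
    exact congrArg Subtype.val (map_add e ⟨x, hx⟩ ⟨y, hy⟩)
  · intro x hx y hy
    rw [hθ x hx, hθ y hy, hθ _ (mul_mem hx hy)]
    exact congrArg Subtype.val (map_mul e ⟨x, hx⟩ ⟨y, hy⟩)
  · intro c x hx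
    have hcx : c • x ∈ M := M.toStarSubalgebra.smul_mem hx c
    rw [hθ x hx, hθ _ hcx]
    have h := congrArg Subtype.val (e.map_smul' c ⟨x, hx⟩)
    exact h
  · intro x hx
    rw [hθ x hx, hθ _ (star_mem hx)]
    have h := congrArg Subtype.val (e.map_star' ⟨x, hx⟩)
    exact h

end Pool.Agent.W662.KKS
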