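import Mathlib
import Pool.Agent.Helper278.DefsG

/-!
Definitions for the perturbation theory of II₁ factors (project KKS).

`M` is a von Neumann algebra in standard form with tracial vector `ξ`, `ρ a` is right
multiplication by `a`.
-/

set_option autoImplicit false
set_option linter.unusedSectionVars false

open scoped InnerProductSpace
open Pool.Agent.Helper278

namespace Pool.Agent.W662.KKS

variable {H : Type} [NormedAddCommGroup H] [InnerProductSpace ℂ H] [CompleteSpace H]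

/-- every element `x` of `A` is within `d ‖x‖` of an element of `B` -/
def Near (A B : Set (H →L[ℂ] H)) (d : ℝ) : Prop := ∀ x ∈ A, ∃ y ∈ B, ‖x - y‖ ≤ d * ‖x‖

/-- `M` is in standard form with cyclic tracial unit vector `ξ`, and `ρ` is right
multiplication: `ρ a (x ξ) = x a ξ`, an isometric anti-isomorphism of `M` onto the commutant. -/
structure Std (M : VonNeumannAlgebra H) (ξ : H) (ρ : (H →L[ℂ] H) → (H →L[ℂ] H)) : Prop where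
  unit : ‖ξ‖ = 1
  cyc : ∀ v : H, ∀ ε : ℝ, 0 < ε → ∃ x ∈ M, ‖v - x ξ‖ ≤ ε
  tr : ∀ x ∈ M, ∀ y ∈ M, ⟪ξ, x (y ξ)⟫_ℂ = ⟪ξ, y (x ξ)⟫_ℂ
  sep : ∀ x ∈ M, x ξ = 0 → x = 0
  vec : ∀ a ∈ M, ρ a ξ = a ξ
  one : ρ 1 = 1
  comm : ∀ a ∈ M, ∀ x ∈ M, ρ a * x = x * ρ a
  add : ∀ a ∈ M, ∀ b ∈ M, ρ (a + b) = ρ a + ρ b
  smul : ∀ c : ℂ, ∀ a ∈ M, ρ (c • a) = c • ρ a
  mul : ∀ a ∈ M, ∀ b ∈ M, ρ (a * b) = ρ b * ρ a
  stm : ∀ a ∈ M, ρ (star a) = star (ρ a)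
  norm : ∀ a ∈ M, ‖ρ a‖ = ‖a‖
  surj : ∀ r : H →L[ℂ] H, (∀ x ∈ M, r * x = x * r) → ∃ a ∈ M, r = ρ a

/-- an increasing sequence of finite groups of unitaries of `M`, with trivial relative commutant
in the strong sense that averages of conjugates tend to the trace -/
structure LFG (M : VonNeumannAlgebra H) (ξ : H) (G : ℕ → Finset (H →L[ℂ] H)) : Prop where
  mono : Monotone G
  one : ∀ n, (1 : H →L[ℂ] H) ∈ G n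
  mul : ∀ n, ∀ u ∈ G n, ∀ v ∈ G n, u * v ∈ G n
  stm : ∀ n, ∀ u ∈ G n, star u ∈ G n
  su : ∀ n, ∀ u ∈ G n, star u * u = 1
  us : ∀ n, ∀ u ∈ G n, u * star u = 1
  mem : ∀ n, ∀ u ∈ G n, u ∈ M
  irr : ∀ x ∈ M, ∀ ε : ℝ, 0 < ε → ∃ N, ∀ n ≥ N,
    ‖((((G n).card : ℂ)⁻¹ • ∑ u ∈ G n, star u * x * u : H →L[ℂ] H)) ξ - ⟪ξ, x ξ⟫_ℂ • ξ‖ ≤ ε

/-- Radon-Nikodym property: vectors almost dominated by `ξ` over `B` are almost in `A ξ`. -/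
def RN (A B : Set (H →L[ℂ] H)) (ξ : H) : Prop :=
  ∀ (ζ : H) (d : ℝ), 0 ≤ d → (∀ b ∈ B, ‖b‖ ≤ 1 → ‖b ζ‖ ≤ ‖b ξ‖ + d) →
    ∃ a ∈ A, ‖a‖ ≤ 4 ∧ ‖ζ - a ξ‖ ≤ 8 * d

/-- `A` and `B` almost commute at the vector `ξ` -/
def Dl (A B : Set (H →L[ℂ] H)) (ξ : H) (δ : ℝ) : Prop :=
  ∀ x ∈ A, ∀ q ∈ B, ‖(x * q - q * x) ξ‖ ≤ δ * ‖x‖ * ‖q‖

/-- the algebra `w⁻¹ N w` -/
def conj (w : (H →L[ℂ] H)ˣ) (N : VonNeumannAlgebra H) : Set (H →L[ℂ] H) :=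
  {y | (w : H →L[ℂ] H) * y * ((w⁻¹ : (H →L[ℂ] H)ˣ) : H →L[ℂ] H) ∈ N}

/-- the pair of algebras `(P, Q)` is `γ`-close to `(M, M')` -/
structure KP (M : VonNeumannAlgebra H) (ξ : H) (ρ : (H →L[ℂ] H) → (H →L[ℂ] H))
    (G : ℕ → Finset (H →L[ℂ] H)) (P Q : Set (H →L[ℂ] H)) (γ : ℝ) : Prop where
  nMP : Near (M : Set (H →L[ℂ] H)) P γ
  nPM : Near P (M : Set (H →L[ℂ] H)) γ
  nM'Q : Near (M.commutant : Set (H →L[ℂ] H)) Q γ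
  nQM' : Near Q (M.commutant : Set (H →L[ℂ] H)) γ
  comm : ∀ y ∈ P, ∀ q ∈ Q, y * q = q * y
  oneP : (1 : H →L[ℂ] H) ∈ P
  addP : ∀ y ∈ P, ∀ z ∈ P, y + z ∈ P
  mulP : ∀ y ∈ P, ∀ z ∈ P, y * z ∈ P
  smulP : ∀ c : ℂ, ∀ y ∈ P, c • y ∈ P
  oneQ : (1 : H →L[ℂ] H) ∈ Q
  addQ : ∀ y ∈ Q, ∀ z ∈ Q, y + z ∈ Q
  mulQ : ∀ y ∈ Q, ∀ z ∈ Q, y * z ∈ Q
  smulQ : ∀ c : ℂ, ∀ y ∈ Q, c • y ∈ Q
  rnP : RN P Q ξ
  rnQ : RN Q P ξ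
  gP : ∀ n, ∀ u ∈ G n, u ∈ P
  gQ : ∀ n, ∀ u ∈ G n, ρ u ∈ Q

/-- approximate 2-cocycle data on `M` with values in `H = L²(M)` -/
structure CD (M : VonNeumannAlgebra H) (ξ : H) (ρ : (H →L[ℂ] H) → (H →L[ℂ] H))
    (c : (H →L[ℂ] H) → (H →L[ℂ] H) → H) (T T' : (H →L[ℂ] H) → (H →L[ℂ] H))
    (γ δ ε : ℝ) : Prop where
  add1 : ∀ x ∈ M, ∀ y ∈ M, ∀ a ∈ M, c (x + y) a = c x a + c y a
  smul1 : ∀ z : ℂ, ∀ x ∈ M, ∀ a ∈ M, c (z • x) a = z • c x a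
  add2 : ∀ x ∈ M, ∀ a ∈ M, ∀ b ∈ M,
    ‖c x (a + b) - c x a - c x b‖ ≤ ε * ‖x‖ * (‖a‖ + ‖b‖)
  smul2 : ∀ x ∈ M, ∀ z : ℂ, ∀ a ∈ M, ‖c x (z • a) - z • c x a‖ ≤ ε * ‖x‖ * (‖z‖ * ‖a‖)
  coc : ∀ x ∈ M, ∀ y ∈ M, ∀ a ∈ M,
    ‖x (c y a) - c (x * y) a + c x (y * a) - ρ a (c x y)‖ ≤ ε * ‖x‖ * ‖y‖ * ‖a‖
  bd : ∀ x ∈ M, ∀ a ∈ M, ‖c x a‖ ≤ δ * ‖x‖ * ‖a‖
  one1 : ∀ a ∈ M, c 1 a = 0
  one2 : ∀ x ∈ M, c x 1 = 0
  eqT' : ∀ x ∈ M, ∀ a ∈ M, c x a = x (T' a ξ) - T' a (x ξ)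
  nT' : ∀ a ∈ M, ‖T' a‖ ≤ γ * ‖a‖
  vT' : ∀ a ∈ M, ‖T' a ξ‖ ≤ δ * ‖a‖
  eqT : ∀ x ∈ M, ∀ a ∈ M, ‖c x a - (T x (a ξ) - ρ a (T x ξ))‖ ≤ ε * ‖x‖ * ‖a‖
  nT : ∀ x ∈ M, ‖T x‖ ≤ γ * ‖x‖
  vT : ∀ x ∈ M, ‖T x ξ‖ ≤ δ * ‖x‖

/-- approximate modularity over the group -/
structure CM (M : VonNeumannAlgebra H) (ρ : (H →L[ℂ] H) → (H →L[ℂ] H))
    (G : ℕ → Finset (H →L[ℂ] H)) (c : (H →L[ℂ] H) → (H →L[ℂ] H) → H) (ε : ℝ) : Prop where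
  left : ∀ n, ∀ u ∈ G n, ∀ x ∈ M, ∀ a ∈ M, c (u * x) a = u (c x a)
  mid : ∀ n, ∀ u ∈ G n, ∀ x ∈ M, ∀ a ∈ M, ‖c (x * u) a - c x (u * a)‖ ≤ ε * ‖x‖ * ‖a‖
  right : ∀ n, ∀ u ∈ G n, ∀ x ∈ M, ∀ a ∈ M, ‖c x (a * u) - ρ u (c x a)‖ ≤ ε * ‖x‖ * ‖a‖

/-- the double commutator `[[S, x], ρ a]` at `ξ` -/
noncomputable def dc (ξ : H) (ρ : (H →L[ℂ] H) → (H →L[ℂ] H)) (S x a : H →L[ℂ] H) : H :=
  (S * x - x * S) (a ξ) - ρ a ((S * x - x * S) ξ)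

/-- vector valued means of bounded functions -/
structure IsVMean {I K : Type} [NormedAddCommGroup K] [InnerProductSpace ℂ K]
    (E : (I → K) → K) : Prop where
  bound : ∀ (f : I → K) (C : ℝ), (∀ i, ‖f i‖ ≤ C) → ‖E f‖ ≤ C
  add : ∀ (f g : I → K) (C : ℝ), (∀ i, ‖f i‖ ≤ C) → (∀ i, ‖g i‖ ≤ C) →
    E (fun i => f i + g i) = E f + E g
  clm : ∀ (T : K →L[ℂ] K) (f : I → K) (C : ℝ), (∀ i, ‖f i‖ ≤ C) →
    E (fun i => T (f i)) = T (E f)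
  const : ∀ v : K, E (fun _ => v) = v

/-! ### 3 × 3 matrices -/

/-- 3 × 3 matrices of operators -/
abbrev Mat (H : Type) [NormedAddCommGroup H] [InnerProductSpace ℂ H] : Type :=
  Fin 3 → Fin 3 → (H →L[ℂ] H)

/-- 3 × 3 matrices of vectors -/
abbrev K3 (H : Type) [NormedAddCommGroup H] [InnerProductSpace ℂ H] : Type :=
  PiLp 2 (fun _ : Fin 3 × Fin 3 => H)

/-- matrix product -/
noncomputable def mm (X Y : Mat H) : Mat H := fun i k => ∑ j, X i j * Y j k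

/-- identity matrix -/
noncomputable def m1 : Mat H := fun i k => if i = k then 1 else 0

/-- adjoint matrix -/
noncomputable def ms (X : Mat H) : Mat H := fun i k => star (X k i)

/-- matrix with a single entry -/
noncomputable def me (i k : Fin 3) (x : H →L[ℂ] H) : Mat H :=
  fun p q => if p = i ∧ q = k then x else 0

/-- left action of matrices -/
noncomputable def Lm (X : Mat H) : K3 H →L[ℂ] K3 H :=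
  (PiLp.continuousLinearEquiv 2 ℂ (fun _ : Fin 3 × Fin 3 => H)).symm.toContinuousLinearMap ∘L
    (ContinuousLinearMap.pi fun p : Fin 3 × Fin 3 =>
      ∑ j, (X p.1 j) ∘L (ContinuousLinearMap.proj (R := ℂ) (φ := fun _ : Fin 3 × Fin 3 => H) (j, p.2))) ∘L
    (PiLp.continuousLinearEquiv 2 ℂ (fun _ : Fin 3 × Fin 3 => H)).toContinuousLinearMap

/-- right action of matrices, through `ρ` -/
noncomputable def Rm (ρ : (H →L[ℂ] H) → (H →L[ℂ] H)) (X : Mat H) : K3 H →L[ℂ] K3 H :=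
  (PiLp.continuousLinearEquiv 2 ℂ (fun _ : Fin 3 × Fin 3 => H)).symm.toContinuousLinearMap ∘L
    (ContinuousLinearMap.pi fun p : Fin 3 × Fin 3 =>
      ∑ j, (ρ (X j p.2)) ∘L (ContinuousLinearMap.proj (R := ℂ) (φ := fun _ : Fin 3 × Fin 3 => H) (p.1, j))) ∘L
    (PiLp.continuousLinearEquiv 2 ℂ (fun _ : Fin 3 × Fin 3 => H)).toContinuousLinearMap

/-- the amplified cochain `(i, k) ↦ ∑ j, c (X i j) (A j k)` -/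
noncomputable def cm (c : (H →L[ℂ] H) → (H →L[ℂ] H) → H) (X A : Mat H) : K3 H :=
  WithLp.toLp 2 fun p : Fin 3 × Fin 3 => ∑ j, c (X p.1 j) (A j p.2)

theorem Lm_apply (X : Mat H) (v : K3 H) (i k : Fin 3) :
    (Lm X v) (i, k) = ∑ j, X i j (v (j, k)) := by
  simp [Lm]

theorem Rm_apply (ρ : (H →L[ℂ] H) → (H →L[ℂ] H)) (X : Mat H) (v : K3 H) (i k : Fin 3) :
    (Rm ρ X v) (i, k) = ∑ j, ρ (X j k) (v (i, j)) := by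
  simp [Rm]

theorem cm_apply (c : (H →L[ℂ] H) → (H →L[ℂ] H) → H) (X A : Mat H) (i k : Fin 3) :
    (cm c X A) (i, k) = ∑ j, c (X i j) (A j k) := rfl

/-- the matrix of vectors `X i k ξ` -/
noncomputable def vm (ξ : H) (X : Mat H) : K3 H := WithLp.toLp 2 fun p : Fin 3 × Fin 3 => X p.1 p.2 ξ

theorem vm_apply (ξ : H) (X : Mat H) (i k : Fin 3) : (vm ξ X) (i, k) = X i k ξ := rfl

/-- entries in `M`, of norm at most `r` -/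
def Ent (M : VonNeumannAlgebra H) (r : ℝ) (X : Mat H) : Prop :=
  ∀ i k, X i k ∈ M ∧ ‖X i k‖ ≤ r

/-- unitary matrices with entries in `M` -/
def IsU (M : VonNeumannAlgebra H) (X : Mat H) : Prop :=
  (∀ i k, X i k ∈ M) ∧ mm (ms X) X = m1 ∧ mm X (ms X) = m1

end Pool.Agent.W662.KKS
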