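import Mathlib
import Pool.Agent.W662.KKS.Defs

/-!
Statements of the parts of the project KKS (Kadison-Kastler stability of II₁ factors).
-/

set_option autoImplicit false
set_option linter.unusedSectionVars false

open scoped InnerProductSpace
open Pool.Agent.Helper278

namespace Pool.Agent.W662.KKS

/-! ### standard form, Radon-Nikodym -/

/-- STD: right multiplication in the standard form. -/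
def S_STD : Prop := ∀ (H : Type) [NormedAddCommGroup H] [InnerProductSpace ℂ H] [CompleteSpace H]
  (M : VonNeumannAlgebra H) (ξ : H), ‖ξ‖ = 1 →
  (∀ v : H, ∀ ε : ℝ, 0 < ε → ∃ x ∈ M, ‖v - x ξ‖ ≤ ε) →
  (∀ x ∈ M, ∀ y ∈ M, ⟪ξ, x (y ξ)⟫_ℂ = ⟪ξ, y (x ξ)⟫_ℂ) → ∃ ρ, Std M ξ ρ

/-- RNA: Radon-Nikodym lemma with effects. -/
def S_RNA : Prop := ∀ (H : Type) [NormedAddCommGroup H] [InnerProductSpace ℂ H] [CompleteSpace H]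
  (N : VonNeumannAlgebra H) (ζ ζ₀ : H) (g d : ℝ), 0 < g → 0 ≤ d →
  (∀ r ∈ N.commutant, ‖r‖ ≤ 1 → ‖r ζ‖ ≤ g * ‖r ζ₀‖ + d) →
  ∃ y ∈ N, ‖y‖ ≤ 2 * g ∧ ‖ζ - y ζ₀‖ ≤ 4 * d

/-- RNW: the Radon-Nikodym property of `(w⁻¹ N w, w⁻¹ N' w)`. -/
def S_RNW : Prop := ∀ (H : Type) [NormedAddCommGroup H] [InnerProductSpace ℂ H] [CompleteSpace H]
  (N : VonNeumannAlgebra H) (w : (H →L[ℂ] H)ˣ) (ξ : H), ‖(w : H →L[ℂ] H) - 1‖ ≤ 1 / 10 →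
  RN (conj w N) (conj w N.commutant) ξ ∧ RN (conj w N.commutant) (conj w N) ξ

/-- KPW: small similarities preserve closeness. -/
def S_KPW : Prop := ∃ K : ℝ, 1 ≤ K ∧ ∀ (H : Type) [NormedAddCommGroup H] [InnerProductSpace ℂ H]
  [CompleteSpace H] (M N : VonNeumannAlgebra H) (ξ : H) (ρ : (H →L[ℂ] H) → (H →L[ℂ] H))
  (G : ℕ → Finset (H →L[ℂ] H)) (w : (H →L[ℂ] H)ˣ) (γ η : ℝ),
  0 ≤ γ → γ ≤ 1 → ‖(w : H →L[ℂ] H) - 1‖ ≤ η → η ≤ 1 / 10 →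
  Near (M : Set (H →L[ℂ] H)) N γ → Near (N : Set (H →L[ℂ] H)) M γ →
  Near (M.commutant : Set (H →L[ℂ] H)) N.commutant γ →
  Near (N.commutant : Set (H →L[ℂ] H)) M.commutant γ →
  (∀ n, ∀ u ∈ G n, u ∈ conj w N) → (∀ n, ∀ u ∈ G n, ρ u ∈ conj w N.commutant) →
  KP M ξ ρ G (conj w N) (conj w N.commutant) (K * (γ + η))

/-- SEL: selection of approximate cocycle data. -/
def S_SEL : Prop := ∃ K : ℝ, 1 ≤ K ∧ ∀ (H : Type) [NormedAddCommGroup H] [InnerProductSpace ℂ H]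
  [CompleteSpace H] (M : VonNeumannAlgebra H) (ξ : H) (ρ : (H →L[ℂ] H) → (H →L[ℂ] H))
  (G : ℕ → Finset (H →L[ℂ] H)) (P Q : Set (H →L[ℂ] H)) (γ δ : ℝ),
  Std M ξ ρ → LFG M ξ G → RN (M : Set (H →L[ℂ] H)) M.commutant ξ →
  RN (M.commutant : Set (H →L[ℂ] H)) M ξ → KP M ξ ρ G P Q γ →
  0 < γ → γ ≤ 1 / K → 0 ≤ δ → Dl (M : Set (H →L[ℂ] H)) Q ξ δ →
  ∃ (c : (H →L[ℂ] H) → (H →L[ℂ] H) → H) (T T' : (H →L[ℂ] H) → (H →L[ℂ] H)),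
    CD M ξ ρ c T T' (K * γ) (K * δ) (K * γ * δ) ∧ CM M ρ G c (K * γ * δ) ∧
    ∀ a ∈ M, ∃ q ∈ Q, ‖q - ρ a‖ ≤ K * γ * ‖a‖ ∧ ∀ x ∈ M, c x a = (x * q - q * x) ξ

/-! ### vanishing of the second cohomology, approximately -/

/-- SM: invariance by random products. -/
def S_SM : Prop := ∀ (G K : Type) [Group G] [NormedAddCommGroup K] [InnerProductSpace ℂ K]
  [CompleteSpace K] (π : G →* (K →L[ℂ] K)) (Z : G → K) (C : ℝ), (∀ g v, ‖π g v‖ = ‖v‖) →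
  (∀ g, ‖Z g‖ ≤ C) → ∃ E : (G × G → K) → K, IsVMean E ∧
    ∀ g h : G, π h (E (fun p => π p.1⁻¹ (Z (p.1 * g * p.2)))) =
      E (fun p => π p.1⁻¹ (Z (p.1 * g * p.2)))

/-- MEAN: the mean on pairs of unitary matrices. -/
def S_MEAN : Prop := ∀ (H : Type) [NormedAddCommGroup H] [InnerProductSpace ℂ H]
  [CompleteSpace H] (M : VonNeumannAlgebra H) (ξ : H) (ρ : (H →L[ℂ] H) → (H →L[ℂ] H)),
  Std M ξ ρ → ∀ (Z : Mat H → K3 H) (C : ℝ), (∀ X, IsU M X → ‖Z X‖ ≤ C) →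
  ∃ (I : Type) (s t : I → Mat H) (E : (I → K3 H) → K3 H), IsVMean E ∧ Nonempty I ∧
    (∀ i, IsU M (s i)) ∧ (∀ i, IsU M (t i)) ∧
    ∀ g, IsU M g → (E (fun i => Lm (ms (s i)) (Rm ρ (s i)
      (Z (mm (s i) (mm g (t i))))))) (0, 2) = 0

section FF
variable {H : Type} [NormedAddCommGroup H] [InnerProductSpace ℂ H] [CompleteSpace H]

/-- `E[s* c(s X t, t* Y s*) s]` -/
noncomputable def FF {I : Type} (ρ : (H →L[ℂ] H) → (H →L[ℂ] H))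
    (c : (H →L[ℂ] H) → (H →L[ℂ] H) → H) (s t : I → Mat H) (E : (I → K3 H) → K3 H)
    (X Y : Mat H) : K3 H :=
  E (fun i => Lm (ms (s i)) (Rm ρ (s i)
    (cm c (mm (s i) (mm X (t i))) (mm (ms (t i)) (mm Y (ms (s i)))))))

/-- `E[c(t, t* Y s*) s - c(Y, s*) s]` -/
noncomputable def pp {I : Type} (ρ : (H →L[ℂ] H) → (H →L[ℂ] H))
    (c : (H →L[ℂ] H) → (H →L[ℂ] H) → H) (s t : I → Mat H) (E : (I → K3 H) → K3 H)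
    (Y : Mat H) : K3 H :=
  E (fun i => Rm ρ (s i) (cm c (t i) (mm (ms (t i)) (mm Y (ms (s i)))))
    - Rm ρ (s i) (cm c Y (ms (s i))))

/-- `-E[c(X, t) t* + s* c(s, X t) t*]` -/
noncomputable def qq {I : Type} (ρ : (H →L[ℂ] H) → (H →L[ℂ] H))
    (c : (H →L[ℂ] H) → (H →L[ℂ] H) → H) (s t : I → Mat H) (E : (I → K3 H) → K3 H)
    (X : Mat H) : K3 H :=
  -E (fun i => Rm ρ (ms (t i)) (cm c X (t i))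
    + Lm (ms (s i)) (Rm ρ (ms (t i)) (cm c (s i) (mm X (t i)))))

/-- `E[c(W, s*) s + s* c(s, W s*) s]` -/
noncomputable def hh {I : Type} (ρ : (H →L[ℂ] H) → (H →L[ℂ] H))
    (c : (H →L[ℂ] H) → (H →L[ℂ] H) → H) (s : I → Mat H) (E : (I → K3 H) → K3 H)
    (W : Mat H) : K3 H :=
  E (fun i => Rm ρ (s i) (cm c W (ms (s i)))
    + Lm (ms (s i)) (Rm ρ (s i) (cm c (s i) (mm W (ms (s i))))))

end FF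

/-- FFL: `FF` is almost bilinear. -/
def S_FFL : Prop := ∃ K : ℝ, 1 ≤ K ∧ ∀ (H : Type) [NormedAddCommGroup H]
  [InnerProductSpace ℂ H] [CompleteSpace H] (M : VonNeumannAlgebra H) (ξ : H)
  (ρ : (H →L[ℂ] H) → (H →L[ℂ] H)) (c : (H →L[ℂ] H) → (H →L[ℂ] H) → H)
  (T T' : (H →L[ℂ] H) → (H →L[ℂ] H)) (γ δ ε : ℝ), Std M ξ ρ → 0 ≤ γ → 0 ≤ δ → 0 ≤ ε →
  CD M ξ ρ c T T' γ δ ε →
  ∀ (I : Type) (s t : I → Mat H) (E : (I → K3 H) → K3 H), IsVMean E → Nonempty I →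
    (∀ i, IsU M (s i)) → (∀ i, IsU M (t i)) →
    ∀ (z z' : Fin 3 → Fin 3 → ℂ) (h h' : Mat H), (∀ i j, ‖z i j‖ ≤ 1) → (∀ i j, ‖z' i j‖ ≤ 1) →
      Ent M 1 h → Ent M 1 h' →
      ‖FF ρ c s t E (fun i j => z i j • h i j) (fun i j => z' i j • h' i j) -
        ∑ i, ∑ j, ∑ k, ∑ l, (z i j * z' k l) •
          FF ρ c s t E (me i j (h i j)) (me k l (h' k l))‖ ≤ K * ε

/-- STAR: the polarised invariance. -/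
def S_STAR : Prop := ∃ K : ℝ, 1 ≤ K ∧ ∀ (H : Type) [NormedAddCommGroup H]
  [InnerProductSpace ℂ H] [CompleteSpace H] (M : VonNeumannAlgebra H) (ξ : H)
  (ρ : (H →L[ℂ] H) → (H →L[ℂ] H)) (c : (H →L[ℂ] H) → (H →L[ℂ] H) → H)
  (T T' : (H →L[ℂ] H) → (H →L[ℂ] H)) (γ δ ε : ℝ), Std M ξ ρ → 0 ≤ γ → 0 ≤ δ → 0 ≤ ε →
  CD M ξ ρ c T T' γ δ ε →
  ∃ (I : Type) (s t : I → Mat H) (E : (I → K3 H) → K3 H), IsVMean E ∧ Nonempty I ∧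
    (∀ i, IsU M (s i)) ∧ (∀ i, IsU M (t i)) ∧
    ∀ a ∈ M, ∀ b ∈ M, a ∈ unitary (H →L[ℂ] H) → b ∈ unitary (H →L[ℂ] H) →
      ‖(-FF ρ c s t E (me 0 0 1) (me 0 2 (a * b)) + (2 : ℂ) • FF ρ c s t E (me 0 1 a) (me 1 2 b)
        - FF ρ c s t E (me 0 2 (a * b)) (me 2 2 1)) (0, 2)‖ ≤ K * ε

/-- MCOC: the cocycle identity for matrices. -/
def S_MCOC : Prop := ∃ K : ℝ, 1 ≤ K ∧ ∀ (H : Type) [NormedAddCommGroup H]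
  [InnerProductSpace ℂ H] [CompleteSpace H] (M : VonNeumannAlgebra H) (ξ : H)
  (ρ : (H →L[ℂ] H) → (H →L[ℂ] H)) (c : (H →L[ℂ] H) → (H →L[ℂ] H) → H)
  (T T' : (H →L[ℂ] H) → (H →L[ℂ] H)) (γ δ ε : ℝ), Std M ξ ρ → 0 ≤ γ → 0 ≤ δ → 0 ≤ ε →
  CD M ξ ρ c T T' γ δ ε → ∀ (r : ℝ) (X Y Z : Mat H), 0 ≤ r → Ent M r X → Ent M r Y →
  Ent M r Z → ‖Lm X (cm c Y Z) - cm c (mm X Y) Z + cm c X (mm Y Z) - Rm ρ Z (cm c X Y)‖ ≤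
    K * ε * r ^ 3

/-- EXP: the expansion of `FF`. -/
def S_EXP : Prop := ∃ K : ℝ, 1 ≤ K ∧ ∀ (H : Type) [NormedAddCommGroup H]
  [InnerProductSpace ℂ H] [CompleteSpace H] (M : VonNeumannAlgebra H) (ξ : H)
  (ρ : (H →L[ℂ] H) → (H →L[ℂ] H)) (c : (H →L[ℂ] H) → (H →L[ℂ] H) → H)
  (T T' : (H →L[ℂ] H) → (H →L[ℂ] H)) (γ δ ε : ℝ), Std M ξ ρ → 0 ≤ γ → 0 ≤ δ → 0 ≤ ε →
  CD M ξ ρ c T T' γ δ ε →
  ∀ (I : Type) (s t : I → Mat H) (E : (I → K3 H) → K3 H), IsVMean E → Nonempty I →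
    (∀ i, IsU M (s i)) → (∀ i, IsU M (t i)) → ∀ X Y, Ent M 1 X → Ent M 1 Y →
    ‖FF ρ c s t E X Y - (cm c X Y + Lm X (pp ρ c s t E Y) + Rm ρ Y (qq ρ c s t E X)
      + hh ρ c s E (mm X Y))‖ ≤ K * ε

/-- OPR: `pp` and `qq` are given by small operators and small vectors. -/
def S_OPR : Prop := ∃ K : ℝ, 1 ≤ K ∧ ∀ (H : Type) [NormedAddCommGroup H]
  [InnerProductSpace ℂ H] [CompleteSpace H] (M : VonNeumannAlgebra H) (ξ : H)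
  (ρ : (H →L[ℂ] H) → (H →L[ℂ] H)) (c : (H →L[ℂ] H) → (H →L[ℂ] H) → H)
  (T T' : (H →L[ℂ] H) → (H →L[ℂ] H)) (γ δ ε : ℝ), Std M ξ ρ → 0 ≤ γ → 0 ≤ δ → 0 ≤ ε →
  CD M ξ ρ c T T' γ δ ε →
  ∀ (I : Type) (s t : I → Mat H) (E : (I → K3 H) → K3 H), IsVMean E → Nonempty I →
    (∀ i, IsU M (s i)) → (∀ i, IsU M (t i)) →
    ∃ (A B : K3 H →L[ℂ] K3 H) (p₁ p₂ q₁ q₂ : K3 H), ‖A‖ ≤ K * γ ∧ ‖B‖ ≤ K * γ ∧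
      ‖p₁‖ ≤ K * δ ∧ ‖p₂‖ ≤ K * δ ∧ ‖q₁‖ ≤ K * δ ∧ ‖q₂‖ ≤ K * δ ∧
      (∀ Y, Ent M 1 Y → ‖pp ρ c s t E Y - (A (vm ξ Y) + Lm Y p₁ + Rm ρ Y p₂)‖ ≤ K * ε) ∧
      (∀ X, Ent M 1 X → ‖qq ρ c s t E X - (B (vm ξ X) + Lm X q₁ + Rm ρ X q₂)‖ ≤ K * ε) ∧
      (∀ Y, Ent M 1 Y → ‖pp ρ c s t E Y‖ ≤ K * δ) ∧ (∀ X, Ent M 1 X → ‖qq ρ c s t E X‖ ≤ K * δ)

/-- UNI: the implementing operator, tested on unitaries. -/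
def S_UNI : Prop := ∃ K : ℝ, 1 ≤ K ∧ ∀ (H : Type) [NormedAddCommGroup H]
  [InnerProductSpace ℂ H] [CompleteSpace H] (M : VonNeumannAlgebra H) (ξ : H)
  (ρ : (H →L[ℂ] H) → (H →L[ℂ] H)) (c : (H →L[ℂ] H) → (H →L[ℂ] H) → H)
  (T T' : (H →L[ℂ] H) → (H →L[ℂ] H)) (γ δ ε : ℝ), Std M ξ ρ → 0 ≤ γ → 0 ≤ δ → 0 ≤ ε →
  ε ≤ δ → CD M ξ ρ c T T' γ δ ε →
  ∃ S : H →L[ℂ] H, ‖S‖ ≤ K * γ ∧ (∀ a ∈ M, ‖S (a ξ)‖ ≤ K * δ * ‖a‖) ∧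
    ∀ a ∈ M, ∀ b ∈ M, a ∈ unitary (H →L[ℂ] H) → b ∈ unitary (H →L[ℂ] H) →
      ‖c a b + dc ξ ρ S a b‖ ≤ K * ε

/-- EXT: from unitaries to all elements. -/
def S_EXT : Prop := ∃ K : ℝ, 1 ≤ K ∧ ∀ (H : Type) [NormedAddCommGroup H]
  [InnerProductSpace ℂ H] [CompleteSpace H] (M : VonNeumannAlgebra H) (ξ : H)
  (ρ : (H →L[ℂ] H) → (H →L[ℂ] H)) (c : (H →L[ℂ] H) → (H →L[ℂ] H) → H)
  (T T' : (H →L[ℂ] H) → (H →L[ℂ] H)) (γ δ ε : ℝ), Std M ξ ρ → 0 ≤ ε →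
  CD M ξ ρ c T T' γ δ ε → ∀ (S : H →L[ℂ] H) (ε' : ℝ), 0 ≤ ε' →
  (∀ a ∈ M, ∀ b ∈ M, a ∈ unitary (H →L[ℂ] H) → b ∈ unitary (H →L[ℂ] H) →
      ‖c a b + dc ξ ρ S a b‖ ≤ ε') →
  ∀ x ∈ M, ∀ a ∈ M, ‖c x a + dc ξ ρ S x a‖ ≤ K * (ε + ε') * ‖x‖ * ‖a‖

/-- H2: approximate cocycles are approximate coboundaries of small operators. -/
def S_H2 : Prop := ∃ K : ℝ, 1 ≤ K ∧ ∀ (H : Type) [NormedAddCommGroup H]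
  [InnerProductSpace ℂ H] [CompleteSpace H] (M : VonNeumannAlgebra H) (ξ : H)
  (ρ : (H →L[ℂ] H) → (H →L[ℂ] H)) (c : (H →L[ℂ] H) → (H →L[ℂ] H) → H)
  (T T' : (H →L[ℂ] H) → (H →L[ℂ] H)) (γ δ ε : ℝ), Std M ξ ρ → 0 ≤ γ → 0 ≤ δ → 0 ≤ ε →
  ε ≤ δ → CD M ξ ρ c T T' γ δ ε →
  ∃ S : H →L[ℂ] H, ‖S‖ ≤ K * γ ∧ (∀ a ∈ M, ‖S (a ξ)‖ ≤ K * δ * ‖a‖) ∧
    ∀ x ∈ M, ∀ a ∈ M, ‖c x a + dc ξ ρ S x a‖ ≤ K * ε * ‖x‖ * ‖a‖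

/-! ### averaging over the group -/

/-- AVG: averaging the implementing operator over the group. -/
def S_AVG : Prop := ∃ K : ℝ, 1 ≤ K ∧ ∀ (H : Type) [NormedAddCommGroup H]
  [InnerProductSpace ℂ H] [CompleteSpace H] (M : VonNeumannAlgebra H) (ξ : H)
  (ρ : (H →L[ℂ] H) → (H →L[ℂ] H)) (G : ℕ → Finset (H →L[ℂ] H))
  (c : (H →L[ℂ] H) → (H →L[ℂ] H) → H) (S₀ : H →L[ℂ] H) (A D ε : ℝ), Std M ξ ρ → LFG M ξ G →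
  0 ≤ ε → CM M ρ G c ε → (∀ x ∈ M, c x 1 = 0) → ‖S₀‖ ≤ A →
  (∀ a ∈ M, ‖S₀ (a ξ)‖ ≤ D * ‖a‖) →
  (∀ x ∈ M, ∀ a ∈ M, ‖c x a + dc ξ ρ S₀ x a‖ ≤ ε * ‖x‖ * ‖a‖) →
  ∃ S : H →L[ℂ] H, ‖S‖ ≤ A ∧ (∀ a ∈ M, ‖S (a ξ)‖ ≤ D * ‖a‖) ∧
    (∀ n, ∀ u ∈ G n, S * u = u * S) ∧ (∀ n, ∀ u ∈ G n, S * ρ u = ρ u * S) ∧
    ∀ x ∈ M, ∀ a ∈ M, ‖c x a + dc ξ ρ S x a‖ ≤ K * ε * ‖x‖ * ‖a‖

/-- TRUNC: truncation. -/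
def S_TRUNC : Prop := ∀ (H : Type) [NormedAddCommGroup H] [InnerProductSpace ℂ H]
  [CompleteSpace H] (M : VonNeumannAlgebra H) (ξ : H) (ρ : (H →L[ℂ] H) → (H →L[ℂ] H)),
  Std M ξ ρ → ∀ y ∈ M, ∀ L : ℝ, 0 < L →
  ∃ y₁ ∈ M, ‖y₁‖ ≤ L ∧ ‖(y - y₁) ξ‖ ≤ ‖(star y * y) ξ‖ / L

/-- FLAT: flattening by random sums. -/
def S_FLAT : Prop := ∀ (H : Type) [NormedAddCommGroup H] [InnerProductSpace ℂ H]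
  [CompleteSpace H] (M : VonNeumannAlgebra H) (ξ : H) (ρ : (H →L[ℂ] H) → (H →L[ℂ] H))
  (G : ℕ → Finset (H →L[ℂ] H)), Std M ξ ρ → LFG M ξ G → ∀ S : H →L[ℂ] H,
  (∀ n, ∀ u ∈ G n, S * u = u * S) → (∀ n, ∀ u ∈ G n, S * ρ u = ρ u * S) →
  ∀ a ∈ M, ‖a ξ‖ = 1 → ∀ (m : ℕ) (lam ε : ℝ), 0 ≤ lam → 0 < ε → ∃ y ∈ M,
    m * ‖S (a ξ)‖ ^ 2 - lam * (m * ‖(star a * a) ξ‖ ^ 2 + 2 * m ^ 2) - ε ≤
      ‖S (y ξ)‖ ^ 2 - lam * ‖(star y * y) ξ‖ ^ 2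

/-- M4: bimodular operators are bounded by their norm from the unit ball of `M` to `L²`. -/
def S_M4 : Prop := ∀ (H : Type) [NormedAddCommGroup H] [InnerProductSpace ℂ H]
  [CompleteSpace H] (M : VonNeumannAlgebra H) (ξ : H) (ρ : (H →L[ℂ] H) → (H →L[ℂ] H))
  (G : ℕ → Finset (H →L[ℂ] H)), Std M ξ ρ → LFG M ξ G → ∀ (S : H →L[ℂ] H) (D : ℝ), 0 ≤ D →
  (∀ n, ∀ u ∈ G n, S * u = u * S) → (∀ n, ∀ u ∈ G n, S * ρ u = ρ u * S) →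
  (∀ a ∈ M, ‖S (a ξ)‖ ≤ D * ‖a‖) → ‖S‖ ≤ 6 * D

/-! ### the iteration -/

/-- STEP: one step, linearised. -/
def S_STEP : Prop := ∃ K : ℝ, 1 ≤ K ∧ ∀ (H : Type) [NormedAddCommGroup H]
  [InnerProductSpace ℂ H] [CompleteSpace H] (M : VonNeumannAlgebra H) (ξ : H)
  (ρ : (H →L[ℂ] H) → (H →L[ℂ] H)) (G : ℕ → Finset (H →L[ℂ] H)) (P Q : Set (H →L[ℂ] H))
  (γ δ : ℝ), Std M ξ ρ → LFG M ξ G → KP M ξ ρ G P Q γ → 0 < γ → γ ≤ 1 / K → 0 ≤ δ →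
  Dl (M : Set (H →L[ℂ] H)) Q ξ δ →
  ∃ S : H →L[ℂ] H, ‖S‖ ≤ K * δ ∧ (∀ n, ∀ u ∈ G n, S * u = u * S) ∧
    (∀ n, ∀ u ∈ G n, S * ρ u = ρ u * S) ∧ ∀ x ∈ M, ∀ q ∈ Q,
      ‖(x * q - q * x) ξ - (x * (S * q - q * S) - (S * q - q * S) * x) ξ‖ ≤
        K * γ * δ * ‖x‖ * ‖q‖

/-- ITER: the limit of the iteration. -/
def S_ITER : Prop := ∃ K : ℝ, 1 ≤ K ∧ ∀ (H : Type) [NormedAddCommGroup H]
  [InnerProductSpace ℂ H] [CompleteSpace H] (M N : VonNeumannAlgebra H) (ξ : H)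
  (ρ : (H →L[ℂ] H) → (H →L[ℂ] H)) (G : ℕ → Finset (H →L[ℂ] H)) (v : (H →L[ℂ] H)ˣ) (γ : ℝ),
  Std M ξ ρ → LFG M ξ G → 0 < γ → γ ≤ 1 / K → ‖(v : H →L[ℂ] H) - 1‖ ≤ γ →
  Near (M : Set (H →L[ℂ] H)) N γ → Near (N : Set (H →L[ℂ] H)) M γ →
  Near (M.commutant : Set (H →L[ℂ] H)) N.commutant γ →
  Near (N.commutant : Set (H →L[ℂ] H)) M.commutant γ →
  (∀ n, ∀ u ∈ G n, u ∈ conj v N) → (∀ n, ∀ u ∈ G n, ρ u ∈ conj v N.commutant) →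
  ∃ w : (H →L[ℂ] H)ˣ, ‖(w : H →L[ℂ] H) - 1‖ ≤ K * γ ∧
    Dl (M : Set (H →L[ℂ] H)) (conj w N.commutant) ξ 0

/-- HH: from commutation at the vector to equality. -/
def S_HH : Prop := ∃ K : ℝ, 1 ≤ K ∧ ∀ (H : Type) [NormedAddCommGroup H]
  [InnerProductSpace ℂ H] [CompleteSpace H] (M N : VonNeumannAlgebra H) (τ : Elt M → ℂ) (ξ : H)
  (ρ : (H →L[ℂ] H) → (H →L[ℂ] H)) (w : (H →L[ℂ] H)ˣ) (γ : ℝ),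
  Std M ξ ρ → IsIIOneFactor M τ → 0 < γ → γ ≤ 1 / K → ‖(w : H →L[ℂ] H) - 1‖ ≤ γ →
  Near (M : Set (H →L[ℂ] H)) N γ → Near (N : Set (H →L[ℂ] H)) M γ →
  Dl (M : Set (H →L[ℂ] H)) (conj w N.commutant) ξ 0 → (M : Set (H →L[ℂ] H)) = conj w N

/-- POL: from similarity to unitary equivalence. -/
def S_POL : Prop := ∀ (H : Type) [NormedAddCommGroup H] [InnerProductSpace ℂ H]
  [CompleteSpace H] (M N : VonNeumannAlgebra H) (w : (H →L[ℂ] H)ˣ),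
  ‖(w : H →L[ℂ] H) - 1‖ ≤ 1 / 100 → (M : Set (H →L[ℂ] H)) = conj w N →
  ∃ u ∈ unitary (H →L[ℂ] H), ∀ x, x ∈ M ↔ u * x * star u ∈ N

/-! ### the group -/

/-- UL: a small unitary moves the group into `N` and its right copy into the commutant. -/
def S_UL : Prop := ∃ K : ℝ, 1 ≤ K ∧ ∀ (H : Type) [NormedAddCommGroup H]
  [InnerProductSpace ℂ H] [CompleteSpace H] (M N : VonNeumannAlgebra H) (ξ : H)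
  (ρ : (H →L[ℂ] H) → (H →L[ℂ] H)) (G : ℕ → Finset (H →L[ℂ] H)) (γ : ℝ),
  Std M ξ ρ → LFG M ξ G → 0 < γ → γ ≤ 1 / K → Near (M : Set (H →L[ℂ] H)) N γ →
  Near (M.commutant : Set (H →L[ℂ] H)) N.commutant γ →
  ∃ v ∈ unitary (H →L[ℂ] H), ‖v - 1‖ ≤ K * γ ∧ (∀ n, ∀ u ∈ G n, v * u * star v ∈ N) ∧
    ∀ n, ∀ u ∈ G n, v * ρ u * star v ∈ N.commutant

/-- HALF: a projection of trace one half, equivalent to its complement. -/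
def S_HALF : Prop := ∀ (H : Type) [NormedAddCommGroup H] [InnerProductSpace ℂ H]
  [CompleteSpace H] (M : VonNeumannAlgebra H) (ξ : H),
  IsIIOneFactor M (fun x : Elt M => ⟪ξ, (x : H →L[ℂ] H) ξ⟫_ℂ) →
  ∃ p ∈ M, ∃ v ∈ M, star p = p ∧ p * p = p ∧ ⟪ξ, p ξ⟫_ℂ = 1 / 2 ∧ star v * v = p ∧
    v * star v = 1 - p

/-- CMP: the complement of a large projection is equivalent to a part of it. -/
def S_CMP : Prop := ∀ (H : Type) [NormedAddCommGroup H] [InnerProductSpace ℂ H]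
  [CompleteSpace H] (M : VonNeumannAlgebra H) (ξ : H),
  IsIIOneFactor M (fun x : Elt M => ⟪ξ, (x : H →L[ℂ] H) ξ⟫_ℂ) →
  ∀ p ∈ M, star p = p → p * p = p → 1 / 2 ≤ (⟪ξ, p ξ⟫_ℂ).re →
  ∃ v ∈ M, star v * v = 1 - p ∧ p * v = v

/-- MIX: mixing in a corner. -/
def S_MIX : Prop := ∀ (H : Type) [NormedAddCommGroup H] [InnerProductSpace ℂ H]
  [CompleteSpace H] (M : VonNeumannAlgebra H) (ξ : H),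
  IsIIOneFactor M (fun x : Elt M => ⟪ξ, (x : H →L[ℂ] H) ξ⟫_ℂ) →
  ∀ p ∈ M, star p = p → p * p = p → ∀ y ∈ M, star y = y → p * y * p = y →
  ∀ z ∈ M, star z = z → p * z * p = z → ∀ η : ℝ, 0 < η →
  ∃ w ∈ M, star w * w = p ∧ w * star w = p ∧
    (⟪ξ, p ξ⟫_ℂ).re * (⟪ξ, (y * (star w * z * w)) ξ⟫_ℂ).re ≤
      (⟪ξ, y ξ⟫_ℂ).re * (⟪ξ, z ξ⟫_ℂ).re + η

/-- LF1: one step of the construction of the group. -/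
def S_LF1 : Prop := ∀ (H : Type) [NormedAddCommGroup H] [InnerProductSpace ℂ H]
  [CompleteSpace H] (M : VonNeumannAlgebra H) (ξ : H),
  IsIIOneFactor M (fun x : Elt M => ⟪ξ, (x : H →L[ℂ] H) ξ⟫_ℂ) →
  ∀ y ∈ M, star y = y → ∃ s ∈ M, ∃ t ∈ M, ∃ M₁ : VonNeumannAlgebra H,
    star s = s ∧ star t = t ∧ s * s = 1 ∧ t * t = 1 ∧ s * t = -(t * s) ∧
    (∀ x : H →L[ℂ] H, x ∈ M₁ ↔ x ∈ M ∧ x * s = s * x ∧ x * t = t * x) ∧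
    IsIIOneFactor M₁ (fun x : Elt M₁ => ⟪ξ, (x : H →L[ℂ] H) ξ⟫_ℂ) ∧
    ‖((4 : ℂ)⁻¹ • (y + s * y * s + t * y * t + star (s * t) * y * (s * t)) -
        ⟪ξ, y ξ⟫_ℂ • (1 : H →L[ℂ] H)) ξ‖ ^ 2 ≤
      3 / 4 * ‖(y - ⟪ξ, y ξ⟫_ℂ • (1 : H →L[ℂ] H)) ξ‖ ^ 2

/-- LF: existence of the group. -/
def S_LF : Prop := ∀ (H : Type) [NormedAddCommGroup H] [InnerProductSpace ℂ H]
  [CompleteSpace H] (M : VonNeumannAlgebra H) (τ : Elt M → ℂ) (ξ : H)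
  (ρ : (H →L[ℂ] H) → (H →L[ℂ] H)), IsIIOneFactor M τ → Std M ξ ρ →
  (∃ x : ℕ → (H →L[ℂ] H), (∀ n, x n ∈ M) ∧ ∀ y ∈ M, ∀ ε : ℝ, 0 < ε → ∃ n, ‖(y - x n) ξ‖ ≤ ε) →
  ∃ G, LFG M ξ G

/-! ### reduction to the standard form -/

/-- AMP: amplification. -/
def S_AMP : Prop := ∀ (H : Type) [NormedAddCommGroup H] [InnerProductSpace ℂ H]
  [CompleteSpace H], ∃ (K : Type) (_ : NormedAddCommGroup K) (_ : InnerProductSpace ℂ K)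
  (_ : CompleteSpace K) (α : (H →L[ℂ] H) →⋆ₐ[ℂ] (K →L[ℂ] K)), (∀ x, ‖α x‖ = ‖x‖) ∧
  ∀ M : VonNeumannAlgebra H, ∃ M₁ : VonNeumannAlgebra K,
    (∀ z : K →L[ℂ] K, z ∈ M₁ ↔ ∃ x ∈ M, z = α x) ∧
    ∀ τ : Elt M → ℂ, IsNormalPositive M τ → ∃ ζ : K, ∀ x : Elt M,
      ⟪ζ, α (x : H →L[ℂ] H) ζ⟫_ℂ = τ x

/-- PRJ: projections close to a von Neumann algebra. -/
def S_PRJ : Prop := ∃ K : ℝ, 1 ≤ K ∧ ∀ (H : Type) [NormedAddCommGroup H]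
  [InnerProductSpace ℂ H] [CompleteSpace H] (A : VonNeumannAlgebra H) (e : H →L[ℂ] H) (d : ℝ),
  star e = e → e * e = e → 0 ≤ d → d ≤ 1 / K → (∃ y ∈ A, ‖e - y‖ ≤ d) →
  ∃ v ∈ unitary (H →L[ℂ] H), ‖v - 1‖ ≤ K * d ∧ star v * e * v ∈ A

/-- CUT: reduced von Neumann algebras. -/
def S_CUT : Prop := ∀ (H : Type) [NormedAddCommGroup H] [InnerProductSpace ℂ H]
  [CompleteSpace H] (e : H →L[ℂ] H), star e = e → e * e = e →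
  ∃ (K : Type) (_ : NormedAddCommGroup K) (_ : InnerProductSpace ℂ K) (_ : CompleteSpace K)
  (V : K →L[ℂ] H), (∀ k, ‖V k‖ = ‖k‖) ∧ (∀ v, e v = v ↔ ∃ k, V k = v) ∧
  ∀ M : VonNeumannAlgebra H, e ∈ M.commutant → ∃ M₁ : VonNeumannAlgebra K,
    (∀ z : K →L[ℂ] K, z ∈ M₁ ↔ ∃ x ∈ M, ∀ k, V (z k) = x (V k)) ∧
    ∀ τ : Elt M → ℂ, IsIIOneFactor M τ → e ≠ 0 →
      ∃ θ : Elt M ≃⋆ₐ[ℂ] Elt M₁,
        (∀ x : Elt M, ∀ k, V ((θ x : K →L[ℂ] K) k) = (x : H →L[ℂ] H) (V k)) ∧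
        ∀ ζ : K, (∀ x : Elt M, ⟪V ζ, (x : H →L[ℂ] H) (V ζ)⟫_ℂ = τ x) →
          IsIIOneFactor M₁ (fun z : Elt M₁ => ⟪ζ, (z : K →L[ℂ] K) ζ⟫_ℂ)

/-- NC: near commutants. -/
def S_NC : Prop := ∃ K : ℝ, 1 ≤ K ∧ ∀ (H : Type) [NormedAddCommGroup H]
  [InnerProductSpace ℂ H] [CompleteSpace H] (M N : VonNeumannAlgebra H) (d : ℝ), 0 < d →
  Near (N : Set (H →L[ℂ] H)) M d → Near (M.commutant : Set (H →L[ℂ] H)) N.commutant (K * d)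

/-- RED: reduction to the standard form. -/
def S_RED : Prop := ∃ K : ℝ, 1 ≤ K ∧ ∀ (H : Type) [NormedAddCommGroup H]
  [InnerProductSpace ℂ H] [CompleteSpace H] (M N : VonNeumannAlgebra H) (τ : Elt M → ℂ)
  (σ : Elt N → ℂ) (d : ℝ), IsIIOneFactor M τ → IsIIOneFactor N σ → 0 < d → d ≤ 1 / K →
  Near (M : Set (H →L[ℂ] H)) N d → Near (N : Set (H →L[ℂ] H)) M d →
  ∃ (H₁ : Type) (_ : NormedAddCommGroup H₁) (_ : InnerProductSpace ℂ H₁) (_ : CompleteSpace H₁)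
    (M₁ N₁ : VonNeumannAlgebra H₁) (τ₁ : Elt M₁ → ℂ) (ξ : H₁)
    (θ : Elt M ≃⋆ₐ[ℂ] Elt M₁) (_ : Elt N ≃⋆ₐ[ℂ] Elt N₁),
    IsIIOneFactor M₁ τ₁ ∧ ‖ξ‖ = 1 ∧ (∀ v : H₁, ∀ ε : ℝ, 0 < ε → ∃ x ∈ M₁, ‖v - x ξ‖ ≤ ε) ∧
    (∀ x ∈ M₁, ∀ y ∈ M₁, ⟪ξ, x (y ξ)⟫_ℂ = ⟪ξ, y (x ξ)⟫_ℂ) ∧
    (∀ x : Elt M, ⟪ξ, (θ x : H₁ →L[ℂ] H₁) ξ⟫_ℂ = τ x) ∧
    Near (M₁ : Set (H₁ →L[ℂ] H₁)) N₁ (K * d) ∧ Near (N₁ : Set (H₁ →L[ℂ] H₁)) M₁ (K * d) ∧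
    Near (M₁.commutant : Set (H₁ →L[ℂ] H₁)) N₁.commutant (K * d) ∧
    Near (N₁.commutant : Set (H₁ →L[ℂ] H₁)) M₁.commutant (K * d)

/-- MAIN: Kadison-Kastler stability of separable II₁ factors. -/
def S_MAIN : Prop := ∃ δ : ℝ, 0 < δ ∧ ∀ (H : Type) [NormedAddCommGroup H]
  [InnerProductSpace ℂ H] [CompleteSpace H] (M N : VonNeumannAlgebra H) (τ : Elt M → ℂ)
  (σ : Elt N → ℂ), IsIIOneFactor M τ → IsIIOneFactor N σ →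
  (∃ x : ℕ → Elt M, ∀ y : Elt M, ∀ ε : ℝ, 0 < ε → ∃ n, norm2 τ (y - x n) ≤ ε) →
  Near (M : Set (H →L[ℂ] H)) N δ → Near (N : Set (H →L[ℂ] H)) M δ →
  Nonempty (Elt M ≃⋆ₐ[ℂ] Elt N)

end Pool.Agent.W662.KKS
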