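import Mathlib
import Pool.Agent.W662.KKS.Stmts
import Pool.Agent.Helper278.Masa

/-!
Statements for the non-separable case of the project KKS: a masa replaces the locally finite group.
-/

set_option autoImplicit false
set_option linter.unusedSectionVars false

open scoped InnerProductSpace
open Pool.Agent.Helper278

namespace Pool.Agent.W662.KKS

section defs

variable {H : Type} [NormedAddCommGroup H] [InnerProductSpace ℂ H] [CompleteSpace H]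

/-- a group of unitaries of `M` -/
structure UG (M : VonNeumannAlgebra H) (U : Set (H →L[ℂ] H)) : Prop where
  one : (1 : H →L[ℂ] H) ∈ U
  mul : ∀ u ∈ U, ∀ v ∈ U, u * v ∈ U
  stm : ∀ u ∈ U, star u ∈ U
  su : ∀ u ∈ U, star u * u = 1
  us : ∀ u ∈ U, u * star u = 1
  mem : ∀ u ∈ U, u ∈ M

/-- the pair of algebras `(P, Q)` is `γ`-close to `(M, M')` and contains `(U, ρ U)` -/
structure KPU (M : VonNeumannAlgebra H) (ξ : H) (ρ : (H →L[ℂ] H) → (H →L[ℂ] H))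
    (U : Set (H →L[ℂ] H)) (P Q : Set (H →L[ℂ] H)) (γ : ℝ) : Prop where
  nMP : Near (M : Set (H →L[ℂ] H)) P γ
  nPM : Near P (M : Set (H →L[ℂ] H)) γ
  nM'Q : Near (M.commutant : Set (H →L[ℂ] H)) Q γ
  nQM' : Near Q (M.commutant : Set (H →L[ℂ] H)) γ
  comm : ∀ y ∈ P, ∀ q ∈ Q, y * q = q * y
  oneP : (1 : H →L[ℂ] H) ∈ P
  addP : ∀ y ∈ P, ∀ z ∈ P, y + z ∈ P
  mulP : ∀ y ∈ P, ∀ z ∈ P, y * z ∈ P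
  smulP : ∀ c : ℂ, ∀ y ∈ P, c • y ∈ P
  oneQ : (1 : H →L[ℂ] H) ∈ Q
  addQ : ∀ y ∈ Q, ∀ z ∈ Q, y + z ∈ Q
  mulQ : ∀ y ∈ Q, ∀ z ∈ Q, y * z ∈ Q
  smulQ : ∀ c : ℂ, ∀ y ∈ Q, c • y ∈ Q
  rnP : RN P Q ξ
  rnQ : RN Q P ξ
  gP : ∀ u ∈ U, u ∈ P
  gQ : ∀ u ∈ U, ρ u ∈ Q

/-- approximate modularity over a group of unitaries -/
structure CMU (M : VonNeumannAlgebra H) (ρ : (H →L[ℂ] H) → (H →L[ℂ] H))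
    (U : Set (H →L[ℂ] H)) (c : (H →L[ℂ] H) → (H →L[ℂ] H) → H) (ε : ℝ) : Prop where
  left : ∀ u ∈ U, ∀ x ∈ M, ∀ a ∈ M, c (u * x) a = u (c x a)
  mid : ∀ u ∈ U, ∀ x ∈ M, ∀ a ∈ M, ‖c (x * u) a - c x (u * a)‖ ≤ ε * ‖x‖ * ‖a‖
  right : ∀ u ∈ U, ∀ x ∈ M, ∀ a ∈ M, ‖c x (a * u) - ρ u (c x a)‖ ≤ ε * ‖x‖ * ‖a‖

/-- the unitaries of a star algebra -/
def UU (A : StarSubalgebra ℂ (H →L[ℂ] H)) : Set (H →L[ℂ] H) :=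
  {u | u ∈ A ∧ star u * u = 1 ∧ u * star u = 1}

/-- standard situation: `M` in standard form, `N` close to `M`, with a masa `A` of `M` contained in
`N` and with `ρ A` contained in the commutant of `N`. -/
structure Inst (M N : VonNeumannAlgebra H) (ξ : H) (ρ : (H →L[ℂ] H) → (H →L[ℂ] H))
    (A : StarSubalgebra ℂ (H →L[ℂ] H)) (γ : ℝ) : Prop where
  std : Std M ξ ρ
  masa : IsMasa M A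
  AN : ∀ a ∈ A, a ∈ N
  AN' : ∀ a ∈ A, ρ a ∈ N.commutant
  n1 : Near (M : Set (H →L[ℂ] H)) N γ
  n2 : Near (N : Set (H →L[ℂ] H)) M γ
  n3 : Near (M.commutant : Set (H →L[ℂ] H)) N.commutant γ
  n4 : Near (N.commutant : Set (H →L[ℂ] H)) M.commutant γ

/-- almost commutation at `ξ` of the corners `p M p` and `ρ p (w⁻¹ N' w) ρ p` -/
def RD (M N : VonNeumannAlgebra H) (ξ : H) (ρ : (H →L[ℂ] H) → (H →L[ℂ] H)) (p : H →L[ℂ] H)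
    (w : (H →L[ℂ] H)ˣ) (δ : ℝ) : Prop :=
  ∀ x ∈ M, ∀ q ∈ conj w N.commutant, p * x * p = x → ρ p * q * ρ p = q →
    ‖(x * q - q * x) ξ‖ ≤ δ * ‖x‖ * ‖q‖

/-- star isomorphism of the corners `p M p` and `p N p` -/
structure CIso (M N : VonNeumannAlgebra H) (p : H →L[ℂ] H)
    (θ θ' : (H →L[ℂ] H) → (H →L[ℂ] H)) : Prop where
  map : ∀ x ∈ M, p * x * p = x → θ x ∈ N ∧ p * θ x * p = θ x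
  map' : ∀ x ∈ N, p * x * p = x → θ' x ∈ M ∧ p * θ' x * p = θ' x
  left : ∀ x ∈ M, p * x * p = x → θ' (θ x) = x
  right : ∀ x ∈ N, p * x * p = x → θ (θ' x) = x
  add : ∀ x ∈ M, ∀ y ∈ M, p * x * p = x → p * y * p = y → θ (x + y) = θ x + θ y
  mul : ∀ x ∈ M, ∀ y ∈ M, p * x * p = x → p * y * p = y → θ (x * y) = θ x * θ y
  smul : ∀ (c : ℂ), ∀ x ∈ M, p * x * p = x → θ (c • x) = c • θ x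
  stm : ∀ x ∈ M, p * x * p = x → θ (star x) = star (θ x)

end defs

/-- UKPW: small similarities preserve closeness. -/
def S_UKPW : Prop := ∃ K : ℝ, 1 ≤ K ∧ ∀ (H : Type) [NormedAddCommGroup H] [InnerProductSpace ℂ H]
  [CompleteSpace H] (M N : VonNeumannAlgebra H) (ξ : H) (ρ : (H →L[ℂ] H) → (H →L[ℂ] H))
  (U : Set (H →L[ℂ] H)) (w : (H →L[ℂ] H)ˣ) (γ η : ℝ),
  0 ≤ γ → γ ≤ 1 → ‖(w : H →L[ℂ] H) - 1‖ ≤ η → η ≤ 1 / 10 →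
  Near (M : Set (H →L[ℂ] H)) N γ → Near (N : Set (H →L[ℂ] H)) M γ →
  Near (M.commutant : Set (H →L[ℂ] H)) N.commutant γ →
  Near (N.commutant : Set (H →L[ℂ] H)) M.commutant γ →
  (∀ u ∈ U, u ∈ conj w N) → (∀ u ∈ U, ρ u ∈ conj w N.commutant) →
  KPU M ξ ρ U (conj w N) (conj w N.commutant) (K * (γ + η))

/-- USEL: selection of approximate cocycle data. -/
def S_USEL : Prop := ∃ K : ℝ, 1 ≤ K ∧ ∀ (H : Type) [NormedAddCommGroup H] [InnerProductSpace ℂ H]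
  [CompleteSpace H] (M : VonNeumannAlgebra H) (ξ : H) (ρ : (H →L[ℂ] H) → (H →L[ℂ] H))
  (U : Set (H →L[ℂ] H)) (P Q : Set (H →L[ℂ] H)) (γ δ : ℝ),
  Std M ξ ρ → UG M U → RN (M : Set (H →L[ℂ] H)) M.commutant ξ →
  RN (M.commutant : Set (H →L[ℂ] H)) M ξ → KPU M ξ ρ U P Q γ →
  0 < γ → γ ≤ 1 / K → 0 ≤ δ → Dl (M : Set (H →L[ℂ] H)) Q ξ δ →
  ∃ (c : (H →L[ℂ] H) → (H →L[ℂ] H) → H) (T T' : (H →L[ℂ] H) → (H →L[ℂ] H)),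
    CD M ξ ρ c T T' (K * γ) (K * δ) (K * γ * δ) ∧ CMU M ρ U c (K * γ * δ) ∧
    ∀ a ∈ M, ρ a + T' a ∈ Q ∧ ∀ x ∈ M, c x a = (x * (ρ a + T' a) - (ρ a + T' a) * x) ξ

/-- UAVG: averaging the implementing operator over a commutative group. -/
def S_UAVG : Prop := ∃ K : ℝ, 1 ≤ K ∧ ∀ (H : Type) [NormedAddCommGroup H]
  [InnerProductSpace ℂ H] [CompleteSpace H] (M : VonNeumannAlgebra H) (ξ : H)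
  (ρ : (H →L[ℂ] H) → (H →L[ℂ] H)) (U : Set (H →L[ℂ] H))
  (c : (H →L[ℂ] H) → (H →L[ℂ] H) → H) (S₀ : H →L[ℂ] H) (A D ε : ℝ), Std M ξ ρ → UG M U →
  (∀ u ∈ U, ∀ v ∈ U, u * v = v * u) →
  0 ≤ ε → CMU M ρ U c ε → (∀ x ∈ M, c x 1 = 0) → ‖S₀‖ ≤ A →
  (∀ a ∈ M, ‖S₀ (a ξ)‖ ≤ D * ‖a‖) →
  (∀ x ∈ M, ∀ a ∈ M, ‖c x a + dc ξ ρ S₀ x a‖ ≤ ε * ‖x‖ * ‖a‖) →
  ∃ S : H →L[ℂ] H, ‖S‖ ≤ A ∧ (∀ a ∈ M, ‖S (a ξ)‖ ≤ D * ‖a‖) ∧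
    (∀ u ∈ U, S * u = u * S) ∧ (∀ u ∈ U, S * ρ u = ρ u * S) ∧
    ∀ x ∈ M, ∀ a ∈ M, ‖c x a + dc ξ ρ S x a‖ ≤ K * ε * ‖x‖ * ‖a‖

/-- LG1: little Grothendieck inequality, for finite families. -/
def S_LG1 : Prop := ∀ (H : Type) [NormedAddCommGroup H] [InnerProductSpace ℂ H]
  [CompleteSpace H] (M : VonNeumannAlgebra H) (ξ : H) (ρ : (H →L[ℂ] H) → (H →L[ℂ] H)),
  Std M ξ ρ → ∀ (S : H →L[ℂ] H) (D : ℝ), 0 ≤ D → (∀ a ∈ M, ‖S (a ξ)‖ ≤ D * ‖a‖) →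
  ∀ (n : ℕ) (a : Fin n → (H →L[ℂ] H)), (∀ i, a i ∈ M) →
    (∀ v : H, ∑ i, ‖a i v‖ ^ 2 ≤ ‖v‖ ^ 2) → (∀ v : H, ∑ i, ‖star (a i) v‖ ^ 2 ≤ ‖v‖ ^ 2) →
    ∑ i, ‖S (a i ξ)‖ ^ 2 ≤ 8 * D ^ 2

/-- LG2: cutting down by projections of `M` of trace close to one. -/
def S_LG2 : Prop := ∀ (H : Type) [NormedAddCommGroup H] [InnerProductSpace ℂ H]
  [CompleteSpace H] (M : VonNeumannAlgebra H) (ξ : H) (ρ : (H →L[ℂ] H) → (H →L[ℂ] H)),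
  Std M ξ ρ → ∀ (S : H →L[ℂ] H) (D : ℝ), 0 ≤ D → (∀ a ∈ M, ‖S (a ξ)‖ ≤ D * ‖a‖) →
  ∀ κ : ℝ, 1 ≤ κ → ∃ r ∈ M, ∃ r' ∈ M, star r = r ∧ r * r = r ∧ star r' = r' ∧ r' * r' = r' ∧
    ‖(1 - r) ξ‖ ^ 2 ≤ 2 / κ ^ 2 ∧ ‖(1 - r') ξ‖ ^ 2 ≤ 2 / κ ^ 2 ∧ ‖S * (r' * ρ r)‖ ≤ 4 * κ * D

/-- LG3: cutting down by projections of the masa. -/
def S_LG3 : Prop := ∀ (H : Type) [NormedAddCommGroup H] [InnerProductSpace ℂ H]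
  [CompleteSpace H] (M : VonNeumannAlgebra H) (ξ : H) (ρ : (H →L[ℂ] H) → (H →L[ℂ] H))
  (A : StarSubalgebra ℂ (H →L[ℂ] H)), Std M ξ ρ → IsMasa M A → ∀ (S : H →L[ℂ] H) (D : ℝ),
  0 ≤ D → (∀ a ∈ M, ‖S (a ξ)‖ ≤ D * ‖a‖) → (∀ a ∈ A, S * a = a * S) →
  (∀ a ∈ A, S * ρ a = ρ a * S) → ∀ κ : ℝ, 1 ≤ κ →
  ∃ p ∈ A, star p = p ∧ p * p = p ∧ ‖(1 - p) ξ‖ ^ 2 ≤ 16 / κ ^ 2 ∧ ‖S * (p * ρ p)‖ ≤ 16 * κ * D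

/-- HSTEP: one step, with a cut by a projection of the masa. -/
def S_HSTEP : Prop := ∃ K : ℝ, 1 ≤ K ∧ ∀ (H : Type) [NormedAddCommGroup H]
  [InnerProductSpace ℂ H] [CompleteSpace H] (M : VonNeumannAlgebra H) (ξ : H)
  (ρ : (H →L[ℂ] H) → (H →L[ℂ] H)) (A : StarSubalgebra ℂ (H →L[ℂ] H)) (P Q : Set (H →L[ℂ] H))
  (γ δ κ : ℝ), Std M ξ ρ → IsMasa M A → KPU M ξ ρ (UU A) P Q γ → 0 < γ → γ ≤ 1 / K → 0 ≤ δ →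
  Dl (M : Set (H →L[ℂ] H)) Q ξ δ → 1 ≤ κ → κ * δ ≤ 1 / K →
  ∃ (p S : H →L[ℂ] H), p ∈ A ∧ star p = p ∧ p * p = p ∧ ‖(1 - p) ξ‖ ^ 2 ≤ 16 / κ ^ 2 ∧
    ‖S‖ ≤ K * κ * δ ∧ (∀ a ∈ A, S * a = a * S) ∧ (∀ a ∈ A, S * ρ a = ρ a * S) ∧
    ∀ W : H →L[ℂ] H, (1 - S) * W = 1 → W * (1 - S) = 1 →
    ∀ x ∈ M, ∀ q ∈ Q, p * x * p = x → ρ p * q * ρ p = q →
      ‖(x * ((1 - S) * q * W) - ((1 - S) * q * W) * x) ξ‖ ≤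
        K * (γ * δ + κ * δ ^ 2) * ‖x‖ * ‖q‖

/-- CRN: corners of von Neumann algebras. -/
def S_CRN : Prop := ∀ (H : Type) [NormedAddCommGroup H] [InnerProductSpace ℂ H]
  [CompleteSpace H] (e : H →L[ℂ] H), star e = e → e * e = e →
  ∃ (K : Type) (_ : NormedAddCommGroup K) (_ : InnerProductSpace ℂ K) (_ : CompleteSpace K)
  (V : K →L[ℂ] H), (∀ k, ‖V k‖ = ‖k‖) ∧ (∀ v, e v = v ↔ ∃ k, V k = v) ∧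
  ∀ M : VonNeumannAlgebra H, e ∈ M → ∃ M₁ : VonNeumannAlgebra K,
    (∀ z : K →L[ℂ] K, z ∈ M₁ ↔ ∃ x ∈ M, e * x * e = x ∧ ∀ k, V (z k) = x (V k)) ∧
    (∀ z : K →L[ℂ] K, z ∈ M₁.commutant ↔ ∃ r ∈ M.commutant, ∀ k, V (z k) = r (V k))

/-- CINST: the corner of an instance. -/
def S_CINST : Prop := ∀ (H : Type) [NormedAddCommGroup H] [InnerProductSpace ℂ H]
  [CompleteSpace H] (M N : VonNeumannAlgebra H) (ξ : H) (ρ : (H →L[ℂ] H) → (H →L[ℂ] H))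
  (A : StarSubalgebra ℂ (H →L[ℂ] H)) (γ : ℝ), 0 ≤ γ → γ ≤ 1 / 10 → Inst M N ξ ρ A γ →
  ∀ p ∈ A, star p = p → p * p = p → p ξ ≠ 0 →
  ∃ (K : Type) (_ : NormedAddCommGroup K) (_ : InnerProductSpace ℂ K) (_ : CompleteSpace K)
  (V : K →L[ℂ] H) (M₁ N₁ : VonNeumannAlgebra K) (ξ₁ : K) (ρ₁ : (K →L[ℂ] K) → (K →L[ℂ] K))
  (A₁ : StarSubalgebra ℂ (K →L[ℂ] K)), Inst M₁ N₁ ξ₁ ρ₁ A₁ γ ∧ (∀ k, ‖V k‖ = ‖k‖) ∧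
    (∀ v, (p v = v ∧ ρ p v = v) ↔ ∃ k, V k = v) ∧
    (∀ z : K →L[ℂ] K, z ∈ M₁ ↔ ∃ x ∈ M, p * x * p = x ∧ ∀ k, V (z k) = x (V k)) ∧
    (∀ z : K →L[ℂ] K, z ∈ N₁ ↔ ∃ x ∈ N, p * x * p = x ∧ ∀ k, V (z k) = x (V k)) ∧
    (∀ z : K →L[ℂ] K, z ∈ M₁.commutant ↔
      ∃ r ∈ M.commutant, ρ p * r * ρ p = r ∧ ∀ k, V (z k) = r (V k)) ∧
    (∀ z : K →L[ℂ] K, z ∈ N₁.commutant ↔
      ∃ r ∈ N.commutant, ρ p * r * ρ p = r ∧ ∀ k, V (z k) = r (V k)) ∧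
    (∀ z : K →L[ℂ] K, z ∈ A₁ ↔ ∃ a ∈ A, p * a = a ∧ ∀ k, V (z k) = a (V k)) ∧
    (‖p ξ‖ : ℂ) • V ξ₁ = p ξ ∧
    (∀ a ∈ M, p * a * p = a → ∀ z : K →L[ℂ] K, (∀ k, V (z k) = a (V k)) →
      ∀ k, V (ρ₁ z k) = ρ a (V k)) ∧
    (∀ x ∈ M, p * x * p = x → ∀ z : K →L[ℂ] K, (∀ k, V (z k) = x (V k)) → ‖z‖ = ‖x‖) ∧
    (∀ x ∈ N, p * x * p = x → ∀ z : K →L[ℂ] K, (∀ k, V (z k) = x (V k)) → ‖z‖ = ‖x‖) ∧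
    (∀ x ∈ N.commutant, ρ p * x * ρ p = x → ∀ z : K →L[ℂ] K, (∀ k, V (z k) = x (V k)) →
      ‖z‖ = ‖x‖)

/-- GSTEP: one step relative to a projection of the masa. -/
def S_GSTEP : Prop := ∃ K : ℝ, 1 ≤ K ∧ ∀ (H : Type) [NormedAddCommGroup H]
  [InnerProductSpace ℂ H] [CompleteSpace H] (M N : VonNeumannAlgebra H) (ξ : H)
  (ρ : (H →L[ℂ] H) → (H →L[ℂ] H)) (A : StarSubalgebra ℂ (H →L[ℂ] H)) (γ : ℝ)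
  (w : (H →L[ℂ] H)ˣ) (p : H →L[ℂ] H) (η δ κ : ℝ), Inst M N ξ ρ A γ → 0 < γ → 0 ≤ η →
  γ + η ≤ 1 / K → ‖(w : H →L[ℂ] H) - 1‖ ≤ η → (∀ a ∈ A, (w : H →L[ℂ] H) * a = a * w) →
  (∀ a ∈ A, (w : H →L[ℂ] H) * ρ a = ρ a * w) → p ∈ A → star p = p → p * p = p →
  ‖(1 - p) ξ‖ ^ 2 ≤ 1 / 2 → 0 ≤ δ → RD M N ξ ρ p w δ → 1 ≤ κ → κ * δ ≤ 1 / K →
  ∃ (p' S : H →L[ℂ] H), p' ∈ A ∧ star p' = p' ∧ p' * p' = p' ∧ p * p' = p' ∧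
    ‖(p - p') ξ‖ ^ 2 ≤ 16 / κ ^ 2 ∧ ‖S‖ ≤ K * κ * δ ∧ (∀ a ∈ A, S * a = a * S) ∧
    (∀ a ∈ A, S * ρ a = ρ a * S) ∧
    ∀ w' : (H →L[ℂ] H)ˣ, (w' : H →L[ℂ] H) * (1 - S) = w →
      RD M N ξ ρ p' w' (K * ((γ + η) * δ + κ * δ ^ 2))

/-- GITER: the limit of the iteration. -/
def S_GITER : Prop := ∃ K : ℝ, 1 ≤ K ∧ ∀ (H : Type) [NormedAddCommGroup H]
  [InnerProductSpace ℂ H] [CompleteSpace H] (M N : VonNeumannAlgebra H) (ξ : H)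
  (ρ : (H →L[ℂ] H) → (H →L[ℂ] H)) (A : StarSubalgebra ℂ (H →L[ℂ] H)) (γ : ℝ),
  Inst M N ξ ρ A γ → 0 < γ → γ ≤ 1 / K →
  ∃ (w : (H →L[ℂ] H)ˣ) (p : H →L[ℂ] H), ‖(w : H →L[ℂ] H) - 1‖ ≤ K * γ ∧
    (∀ a ∈ A, (w : H →L[ℂ] H) * a = a * w) ∧ (∀ a ∈ A, (w : H →L[ℂ] H) * ρ a = ρ a * w) ∧
    p ∈ A ∧ star p = p ∧ p * p = p ∧ ‖(1 - p) ξ‖ ^ 2 ≤ 1 / 4 ∧ RD M N ξ ρ p w 0

/-- GCI: isomorphism of corners. -/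
def S_GCI : Prop := ∃ K : ℝ, 1 ≤ K ∧ ∀ (H : Type) [NormedAddCommGroup H]
  [InnerProductSpace ℂ H] [CompleteSpace H] (M N : VonNeumannAlgebra H) (τ : Elt M → ℂ) (ξ : H)
  (ρ : (H →L[ℂ] H) → (H →L[ℂ] H)) (A : StarSubalgebra ℂ (H →L[ℂ] H)) (γ : ℝ)
  (w : (H →L[ℂ] H)ˣ) (p : H →L[ℂ] H), IsIIOneFactor M τ → Inst M N ξ ρ A γ → 0 < γ → γ ≤ 1 / K →
  ‖(w : H →L[ℂ] H) - 1‖ ≤ 1 / K → (∀ a ∈ A, (w : H →L[ℂ] H) * a = a * w) →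
  (∀ a ∈ A, (w : H →L[ℂ] H) * ρ a = ρ a * w) → p ∈ A → star p = p → p * p = p →
  ‖(1 - p) ξ‖ ^ 2 ≤ 1 / 4 → RD M N ξ ρ p w 0 → ∃ θ θ', CIso M N p θ θ'

/-- TRA: the traces agree on the masa. -/
def S_TRA : Prop := ∃ K : ℝ, 1 ≤ K ∧ ∀ (H : Type) [NormedAddCommGroup H]
  [InnerProductSpace ℂ H] [CompleteSpace H] (M N : VonNeumannAlgebra H) (τ : Elt M → ℂ)
  (σ : Elt N → ℂ) (ξ : H) (ρ : (H →L[ℂ] H) → (H →L[ℂ] H))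
  (A : StarSubalgebra ℂ (H →L[ℂ] H)) (γ : ℝ), IsIIOneFactor M τ → IsIIOneFactor N σ →
  Inst M N ξ ρ A γ → γ ≤ 1 / K → ∀ (p : H →L[ℂ] H) (_ : p ∈ A) (h1 : p ∈ M) (h2 : p ∈ N),
    τ ⟨p, h1⟩ = σ ⟨p, h2⟩ ∧ τ ⟨p, h1⟩ = ⟪ξ, p ξ⟫_ℂ

/-- AMPL: isomorphic large corners of equal trace. -/
def S_AMPL : Prop := ∀ (H : Type) [NormedAddCommGroup H] [InnerProductSpace ℂ H]
  [CompleteSpace H] (M N : VonNeumannAlgebra H) (τ : Elt M → ℂ) (σ : Elt N → ℂ)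
  (p : H →L[ℂ] H) (h1 : p ∈ M) (h2 : p ∈ N) (θ θ' : (H →L[ℂ] H) → (H →L[ℂ] H)),
  IsIIOneFactor M τ → IsIIOneFactor N σ → star p = p → p * p = p → τ ⟨p, h1⟩ = σ ⟨p, h2⟩ →
  1 / 2 ≤ (τ ⟨p, h1⟩).re → CIso M N p θ θ' → Nonempty (Elt M ≃⋆ₐ[ℂ] Elt N)

/-- GUL: a small unitary moves the masa into `N` and its right copy into the commutant. -/
def S_GUL : Prop := ∃ K : ℝ, 1 ≤ K ∧ ∀ (H : Type) [NormedAddCommGroup H]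
  [InnerProductSpace ℂ H] [CompleteSpace H] (M N : VonNeumannAlgebra H) (ξ : H)
  (ρ : (H →L[ℂ] H) → (H →L[ℂ] H)) (A : StarSubalgebra ℂ (H →L[ℂ] H)) (γ : ℝ),
  Std M ξ ρ → IsMasa M A → 0 < γ → γ ≤ 1 / K → Near (M : Set (H →L[ℂ] H)) N γ →
  Near (N : Set (H →L[ℂ] H)) M γ →
  Near (M.commutant : Set (H →L[ℂ] H)) N.commutant γ →
  Near (N.commutant : Set (H →L[ℂ] H)) M.commutant γ →
  ∃ (N₁ : VonNeumannAlgebra H), Nonempty (Elt N ≃⋆ₐ[ℂ] Elt N₁) ∧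
    (∃ v ∈ unitary (H →L[ℂ] H), ∀ x, x ∈ N₁ ↔ v * x * star v ∈ N) ∧ Inst M N₁ ξ ρ A (K * γ)

/-- CUTN: the reduced algebra is a II₁ factor (normality of the trace). -/
def S_CUTN : Prop := ∀ (H : Type) [NormedAddCommGroup H] [InnerProductSpace ℂ H]
  [CompleteSpace H] (M : VonNeumannAlgebra H) (τ : Elt M → ℂ), IsIIOneFactor M τ →
  ∀ (K : Type) [NormedAddCommGroup K] [InnerProductSpace ℂ K] [CompleteSpace K]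
    (V : K →L[ℂ] H) (M₁ : VonNeumannAlgebra K) (θ : Elt M ≃⋆ₐ[ℂ] Elt M₁),
    (∀ k, ‖V k‖ = ‖k‖) →
    (∀ x : Elt M, ∀ k, V ((θ x : K →L[ℂ] K) k) = (x : H →L[ℂ] H) (V k)) →
    IsIIOneFactor M₁ (fun z : Elt M₁ => τ (θ.symm z))

/-- RED2: reduction to the standard form, with a trace on `N₁`. -/
def S_RED2 : Prop := ∃ K : ℝ, 1 ≤ K ∧ ∀ (H : Type) [NormedAddCommGroup H]
  [InnerProductSpace ℂ H] [CompleteSpace H] (M N : VonNeumannAlgebra H) (τ : Elt M → ℂ)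
  (σ : Elt N → ℂ) (d : ℝ), IsIIOneFactor M τ → IsIIOneFactor N σ → 0 < d → d ≤ 1 / K →
  Near (M : Set (H →L[ℂ] H)) N d → Near (N : Set (H →L[ℂ] H)) M d →
  ∃ (H₁ : Type) (_ : NormedAddCommGroup H₁) (_ : InnerProductSpace ℂ H₁) (_ : CompleteSpace H₁)
    (M₁ N₁ : VonNeumannAlgebra H₁) (τ₁ : Elt M₁ → ℂ) (σ₁ : Elt N₁ → ℂ) (ξ : H₁)
    (_ : Elt M ≃⋆ₐ[ℂ] Elt M₁) (_ : Elt N ≃⋆ₐ[ℂ] Elt N₁),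
    IsIIOneFactor M₁ τ₁ ∧ IsIIOneFactor N₁ σ₁ ∧ ‖ξ‖ = 1 ∧
    (∀ v : H₁, ∀ ε : ℝ, 0 < ε → ∃ x ∈ M₁, ‖v - x ξ‖ ≤ ε) ∧
    (∀ x ∈ M₁, ∀ y ∈ M₁, ⟪ξ, x (y ξ)⟫_ℂ = ⟪ξ, y (x ξ)⟫_ℂ) ∧
    Near (M₁ : Set (H₁ →L[ℂ] H₁)) N₁ (K * d) ∧ Near (N₁ : Set (H₁ →L[ℂ] H₁)) M₁ (K * d) ∧
    Near (M₁.commutant : Set (H₁ →L[ℂ] H₁)) N₁.commutant (K * d) ∧
    Near (N₁.commutant : Set (H₁ →L[ℂ] H₁)) M₁.commutant (K * d)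

/-- GMAIN: Kadison-Kastler stability of II₁ factors. -/
def S_GMAIN : Prop := ∃ δ : ℝ, 0 < δ ∧ ∀ (H : Type) [NormedAddCommGroup H]
  [InnerProductSpace ℂ H] [CompleteSpace H] (M N : VonNeumannAlgebra H) (τ : Elt M → ℂ)
  (σ : Elt N → ℂ), IsIIOneFactor M τ → IsIIOneFactor N σ →
  Near (M : Set (H →L[ℂ] H)) N δ → Near (N : Set (H →L[ℂ] H)) M δ →
  Nonempty (Elt M ≃⋆ₐ[ℂ] Elt N)

end Pool.Agent.W662.KKS
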