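import Mathlib
import Pool.Agent.W662.KKS.Stmts

/-!
Assembly of the main theorem of the project KKS from its parts.
-/

set_option autoImplicit false
set_option linter.unusedSectionVars false

open scoped InnerProductSpace
open Pool.Agent.Helper278

namespace Pool.Agent.W662.KKS

section
variable {H : Type} [NormedAddCommGroup H] [InnerProductSpace ℂ H] [CompleteSpace H]

theorem Near.mono {A B : Set (H →L[ℂ] H)} {d d' : ℝ} (h : Near A B d) (hd : d ≤ d') :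
    Near A B d' := by
  intro x hx
  obtain ⟨y, hy, hxy⟩ := h x hx
  exact ⟨y, hy, hxy.trans (mul_le_mul_of_nonneg_right hd (norm_nonneg _))⟩

/-- conjugation by a unitary as an isomorphism of von Neumann algebras -/
noncomputable def conjEquiv (M N : VonNeumannAlgebra H) (u : H →L[ℂ] H)
    (hu : u ∈ unitary (H →L[ℂ] H)) (h : ∀ x, x ∈ M ↔ u * x * star u ∈ N) :
    Elt M ≃⋆ₐ[ℂ] Elt N where
  toFun x := ⟨u * (x : H →L[ℂ] H) * star u, (h x).1 x.2⟩
  invFun y := ⟨star u * (y : H →L[ℂ] H) * u, by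
    refine (h _).2 ?_
    have e : u * (star u * (y : H →L[ℂ] H) * u) * star u = (y : H →L[ℂ] H) := by
      calc u * (star u * (y : H →L[ℂ] H) * u) * star u
          = (u * star u) * (y : H →L[ℂ] H) * (u * star u) := by noncomm_ring
        _ = y := by rw [(Unitary.mem_iff.1 hu).2, one_mul, mul_one]
    rw [e]
    exact y.2⟩
  left_inv x := by
    apply Subtype.ext
    show star u * (u * (x : H →L[ℂ] H) * star u) * u = x
    calc star u * (u * (x : H →L[ℂ] H) * star u) * u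
        = (star u * u) * (x : H →L[ℂ] H) * (star u * u) := by noncomm_ring
      _ = x := by rw [(Unitary.mem_iff.1 hu).1, one_mul, mul_one]
  right_inv y := by
    apply Subtype.ext
    show u * (star u * (y : H →L[ℂ] H) * u) * star u = y
    calc u * (star u * (y : H →L[ℂ] H) * u) * star u
        = (u * star u) * (y : H →L[ℂ] H) * (u * star u) := by noncomm_ring
      _ = y := by rw [(Unitary.mem_iff.1 hu).2, one_mul, mul_one]
  map_mul' x y := by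
    apply Subtype.ext
    show u * ((x : H →L[ℂ] H) * y) * star u = (u * (x : H →L[ℂ] H) * star u) * (u * y * star u)
    calc u * ((x : H →L[ℂ] H) * y) * star u
        = u * (x : H →L[ℂ] H) * 1 * y * star u := by noncomm_ring
      _ = u * (x : H →L[ℂ] H) * (star u * u) * y * star u := by rw [(Unitary.mem_iff.1 hu).1]
      _ = _ := by noncomm_ring
  map_add' x y := by
    apply Subtype.ext
    show u * ((x : H →L[ℂ] H) + y) * star u = u * (x : H →L[ℂ] H) * star u + u * y * star u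
    noncomm_ring
  map_star' x := by
    apply Subtype.ext
    show u * star (x : H →L[ℂ] H) * star u = star (u * (x : H →L[ℂ] H) * star u)
    rw [star_mul, star_mul, star_star, mul_assoc]
  map_smul' c x := by
    apply Subtype.ext
    show u * (c • (x : H →L[ℂ] H)) * star u = c • (u * (x : H →L[ℂ] H) * star u)
    rw [mul_smul_comm, smul_mul_assoc]

end

theorem main (h1 : S_STD) (h2 : S_RED) (h3 : S_LF) (h4 : S_UL) (h5 : S_ITER) (h6 : S_HH)
    (h7 : S_POL) : S_MAIN := by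
  obtain ⟨K2, hK2, h2⟩ := h2
  obtain ⟨K4, hK4, h4⟩ := h4
  obtain ⟨K5, hK5, h5⟩ := h5
  obtain ⟨K6, hK6, h6⟩ := h6
  have p2 : 0 < K2 := by linarith
  have p4 : 0 < K4 := by linarith
  have p5 : 0 < K5 := by linarith
  have p6 : 0 < K6 := by linarith
  have hB : 0 < 100 * K2 * K4 * K5 * K6 := by positivity
  refine ⟨1 / (100 * K2 * K4 * K5 * K6), by positivity, ?_⟩
  intro H _ _ _ M N τ σ hM hN hsep hMN hNM
  set d : ℝ := 1 / (100 * K2 * K4 * K5 * K6) with hd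
  have hd0 : 0 < d := by positivity
  have hdB : K2 * K4 * K5 * K6 * d = 1 / 100 := by
    rw [hd]; field_simp
  have q46 : 1 ≤ K4 * K6 := by nlinarith
  have q45 : 1 ≤ K4 * K5 := by nlinarith
  have q56 : 1 ≤ K5 * K6 := by nlinarith
  have q456 : 1 ≤ K4 * K5 * K6 := by nlinarith
  have e2 : d ≤ 1 / K2 := by
    rw [le_div_iff₀ p2]
    have : K2 * d * 1 ≤ K2 * d * (K4 * K5 * K6) :=
      mul_le_mul_of_nonneg_left q456 (by positivity)
    nlinarith
  obtain ⟨H₁, i1, i2, i3, M₁, N₁, τ₁, ξ, θ, θ', hM₁, hξ, hcyc, htr, hτ, n1, n2, n3, n4⟩ :=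
    h2 H M N τ σ d hM hN hd0 e2 hMN hNM
  obtain ⟨ρ, hρ⟩ := h1 H₁ M₁ ξ hξ hcyc htr
  -- separability
  have hsep' : ∃ x : ℕ → (H₁ →L[ℂ] H₁), (∀ n, x n ∈ M₁) ∧
      ∀ y ∈ M₁, ∀ ε : ℝ, 0 < ε → ∃ n, ‖(y - x n) ξ‖ ≤ ε := by
    obtain ⟨x, hx⟩ := hsep
    refine ⟨fun n => (θ (x n) : H₁ →L[ℂ] H₁), fun n => (θ (x n)).2, ?_⟩
    intro y hy ε hε
    obtain ⟨n, hn⟩ := hx (θ.symm ⟨y, hy⟩) ε hε
    refine ⟨n, ?_⟩
    have key : ∀ z : Elt M, norm2 τ z = ‖(θ z : H₁ →L[ℂ] H₁) ξ‖ := by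
      intro z
      have e : ⟪ξ, (θ (star z * z) : H₁ →L[ℂ] H₁) ξ⟫_ℂ =
          ((‖(θ z : H₁ →L[ℂ] H₁) ξ‖ ^ 2 : ℝ) : ℂ) := by
        have e1 : (θ (star z * z) : H₁ →L[ℂ] H₁) =
            star (θ z : H₁ →L[ℂ] H₁) * (θ z : H₁ →L[ℂ] H₁) := by
          rw [map_mul, map_star]; rfl
        rw [e1, ContinuousLinearMap.star_eq_adjoint]
        show ⟪ξ, ContinuousLinearMap.adjoint (θ z : H₁ →L[ℂ] H₁)
          ((θ z : H₁ →L[ℂ] H₁) ξ)⟫_ℂ = _
        rw [ContinuousLinearMap.adjoint_inner_right, inner_self_eq_norm_sq_to_K]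
        push_cast
        rfl
      unfold norm2
      rw [← hτ, e, Complex.ofReal_re, Real.sqrt_sq (norm_nonneg _)]
    rw [key] at hn
    have e3 : ((θ (θ.symm ⟨y, hy⟩ - x n) : Elt M₁) : H₁ →L[ℂ] H₁) =
        y - (θ (x n) : H₁ →L[ℂ] H₁) := by
      rw [map_sub, StarAlgEquiv.apply_symm_apply]; rfl
    rw [e3] at hn
    exact hn
  obtain ⟨G, hG⟩ := h3 H₁ M₁ τ₁ ξ ρ hM₁ hρ hsep'
  have g1pos : 0 < K2 * d := by positivity
  have e4 : K2 * d ≤ 1 / K4 := by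
    rw [le_div_iff₀ p4]
    have : K2 * d * K4 * 1 ≤ K2 * d * K4 * (K5 * K6) :=
      mul_le_mul_of_nonneg_left q56 (by positivity)
    nlinarith
  obtain ⟨v, hv, hv1, hvG, hvG'⟩ := h4 H₁ M₁ N₁ ξ ρ G (K2 * d) hρ hG g1pos e4 n1 n3
  let vu : (H₁ →L[ℂ] H₁)ˣ := ⟨v, star v, (Unitary.mem_iff.1 hv).2, (Unitary.mem_iff.1 hv).1⟩
  have gpos : 0 < K4 * (K2 * d) := by positivity
  have e5 : K4 * (K2 * d) ≤ 1 / K5 := by
    rw [le_div_iff₀ p5]
    have : K4 * (K2 * d) * K5 * 1 ≤ K4 * (K2 * d) * K5 * K6 :=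
      mul_le_mul_of_nonneg_left hK6 (by positivity)
    nlinarith
  have le1 : K2 * d ≤ K4 * (K2 * d) := by nlinarith
  obtain ⟨w, hw1, hw⟩ := h5 H₁ M₁ N₁ ξ ρ G vu (K4 * (K2 * d)) hρ hG gpos e5 hv1
    (n1.mono le1) (n2.mono le1) (n3.mono le1) (n4.mono le1) hvG hvG'
  have g6 : 0 < K5 * (K4 * (K2 * d)) := by positivity
  have e6 : K5 * (K4 * (K2 * d)) ≤ 1 / K6 := by
    rw [le_div_iff₀ p6]
    nlinarith
  have le2 : K2 * d ≤ K5 * (K4 * (K2 * d)) := by nlinarith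
  have hEq := h6 H₁ M₁ N₁ τ₁ ξ ρ w (K5 * (K4 * (K2 * d))) hρ hM₁ g6 e6 hw1
    (n1.mono le2) (n2.mono le2) hw
  have e7 : ‖(w : H₁ →L[ℂ] H₁) - 1‖ ≤ 1 / 100 := by
    refine hw1.trans ?_
    have : K5 * (K4 * (K2 * d)) * 1 ≤ K5 * (K4 * (K2 * d)) * K6 :=
      mul_le_mul_of_nonneg_left hK6 (by positivity)
    nlinarith
  obtain ⟨u, hu, huM⟩ := h7 H₁ M₁ N₁ w e7 hEq
  exact ⟨(θ.trans (conjEquiv M₁ N₁ u hu huM)).trans θ'.symm⟩

end Pool.Agent.W662.KKS
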