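import Mathlib
import Pool.Agent.W662.KKS.Asm
import Pool.Agent.W662.KKS.Stmts3

/-!
Assembly of the general (non-separable) stability theorem of the project KKS from its parts.
-/

set_option autoImplicit false
set_option linter.unusedSectionVars false

open scoped InnerProductSpace
open Pool.Agent.Helper278

namespace Pool.Agent.W662.KKS

theorem gmain' (h1 : S_STD) (h2 : S_RED2) (h3 : S_GUL) (h4 : S_GITER) (h5 : S_GCI) (h6 : S_TRA)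
    (h7 : S_AMPL) (h8 : S_CUTN) : S_GMAIN := by
  obtain ⟨K2, hK2, h2⟩ := h2
  obtain ⟨K3, hK3, h3⟩ := h3
  obtain ⟨K4, hK4, h4⟩ := h4
  obtain ⟨K5, hK5, h5⟩ := h5
  obtain ⟨K6, hK6, h6⟩ := h6
  have p2 : 0 < K2 := by linarith
  have p3 : 0 < K3 := by linarith
  have p4 : 0 < K4 := by linarith
  have p5 : 0 < K5 := by linarith
  have p6 : 0 < K6 := by linarith
  have hB : 0 < K2 * K3 * K4 * K5 * K6 := by positivity
  refine ⟨1 / (K2 * K3 * K4 * K5 * K6), by positivity, ?_⟩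
  intro H _ _ _ M N τ σ hM hN hMN hNM
  set d : ℝ := 1 / (K2 * K3 * K4 * K5 * K6) with hd
  have hd0 : 0 < d := by positivity
  have hdB : K2 * K3 * K4 * K5 * K6 * d = 1 := by
    rw [hd]; field_simp
  have q34 : 1 ≤ K3 * K4 := by nlinarith
  have q345 : 1 ≤ K3 * K4 * K5 := by nlinarith
  have q3456 : 1 ≤ K3 * K4 * K5 * K6 := by nlinarith
  have q456 : 1 ≤ K4 * K5 * K6 := by
    have : 1 ≤ K4 * K5 := by nlinarith
    nlinarith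
  have q56 : 1 ≤ K5 * K6 := by nlinarith
  have q46 : 1 ≤ K4 * K6 := by nlinarith
  have q45 : 1 ≤ K4 * K5 := by nlinarith
  have e2 : d ≤ 1 / K2 := by
    rw [le_div_iff₀ p2]
    have : K2 * d * 1 ≤ K2 * d * (K3 * K4 * K5 * K6) :=
      mul_le_mul_of_nonneg_left q3456 (by positivity)
    nlinarith
  obtain ⟨H₁, i1, i2, i3, M₁, N₁, τ₁, σ₁, ξ, θ, θ', hM₁, hN₁, hξ, hcyc, htr, n1, n2, n3, n4⟩ :=
    h2 H M N τ σ d hM hN hd0 e2 hMN hNM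
  obtain ⟨ρ, hρ⟩ := h1 H₁ M₁ ξ hξ hcyc htr
  obtain ⟨A, hA, -⟩ := exists_masa M₁ (∅ : Set (H₁ →L[ℂ] H₁)) (by simp) (by simp) (by simp)
  have g2 : 0 < K2 * d := by positivity
  have e3 : K2 * d ≤ 1 / K3 := by
    rw [le_div_iff₀ p3]
    have : K2 * d * K3 * 1 ≤ K2 * d * K3 * (K4 * K5 * K6) :=
      mul_le_mul_of_nonneg_left q456 (by positivity)
    nlinarith
  obtain ⟨N₂, ⟨ι⟩, ⟨v, hv, hvN⟩, hI⟩ := h3 H₁ M₁ N₁ ξ ρ A (K2 * d) hρ hA g2 e3 n1 n2 n3 n4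
  have g3 : 0 < K3 * (K2 * d) := by positivity
  have e4 : K3 * (K2 * d) ≤ 1 / K4 := by
    rw [le_div_iff₀ p4]
    have : K3 * (K2 * d) * K4 * 1 ≤ K3 * (K2 * d) * K4 * (K5 * K6) :=
      mul_le_mul_of_nonneg_left q56 (by positivity)
    nlinarith
  have e5 : K3 * (K2 * d) ≤ 1 / K5 := by
    rw [le_div_iff₀ p5]
    have : K3 * (K2 * d) * K5 * 1 ≤ K3 * (K2 * d) * K5 * (K4 * K6) :=
      mul_le_mul_of_nonneg_left q46 (by positivity)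
    nlinarith
  have e6 : K3 * (K2 * d) ≤ 1 / K6 := by
    rw [le_div_iff₀ p6]
    have : K3 * (K2 * d) * K6 * 1 ≤ K3 * (K2 * d) * K6 * (K4 * K5) :=
      mul_le_mul_of_nonneg_left q45 (by positivity)
    nlinarith
  obtain ⟨w, p, hw1, hwA, hwA', hpA, hps, hpp, hp4, hRD⟩ := h4 H₁ M₁ N₂ ξ ρ A _ hI g3 e4
  have e7 : K4 * (K3 * (K2 * d)) ≤ 1 / K5 := by
    rw [le_div_iff₀ p5]
    have : K4 * (K3 * (K2 * d)) * K5 * 1 ≤ K4 * (K3 * (K2 * d)) * K5 * K6 :=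
      mul_le_mul_of_nonneg_left hK6 (by positivity)
    nlinarith
  obtain ⟨φ, φ', hφ⟩ := h5 H₁ M₁ N₂ τ₁ ξ ρ A _ w p hM₁ hI g3 e5 (hw1.trans e7) hwA hwA' hpA hps
    hpp hp4 hRD
  -- the conjugated algebra is a II₁ factor
  have hv' := Unitary.mem_iff.1 hv
  let κ : Elt N₁ ≃⋆ₐ[ℂ] Elt N₂ := (conjEquiv N₂ N₁ v hv hvN).symm
  have hκ : ∀ x : Elt N₁, ((κ x : Elt N₂) : H₁ →L[ℂ] H₁) = star v * (x : H₁ →L[ℂ] H₁) * v :=
    fun x => rfl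
  have hviso : ∀ k : H₁, ‖v k‖ = ‖k‖ := by
    intro k
    have : ⟪v k, v k⟫_ℂ = ⟪k, k⟫_ℂ := by
      rw [← ContinuousLinearMap.adjoint_inner_right, ← ContinuousLinearMap.star_eq_adjoint]
      have e : star v (v k) = k := by
        have := congrArg (fun T : H₁ →L[ℂ] H₁ => T k) hv'.1
        simpa using this
      rw [e]
    rw [inner_self_eq_norm_sq_to_K, inner_self_eq_norm_sq_to_K] at this
    have h2 : ‖v k‖ ^ 2 = ‖k‖ ^ 2 := by exact_mod_cast this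
    exact (sq_eq_sq₀ (norm_nonneg _) (norm_nonneg _)).1 h2
  have hN₂ : IsIIOneFactor N₂ (fun z : Elt N₂ => σ₁ (κ.symm z)) := by
    refine h8 H₁ N₁ σ₁ hN₁ H₁ v N₂ κ hviso ?_
    intro x k
    rw [hκ]
    have := congrArg (fun T : H₁ →L[ℂ] H₁ => T ((x : H₁ →L[ℂ] H₁) (v k))) hv'.2
    simpa using this
  have hpM : p ∈ M₁ := hI.masa.le p hpA
  have hpN : p ∈ N₂ := hI.AN p hpA
  obtain ⟨t1, t2⟩ := h6 H₁ M₁ N₂ τ₁ _ ξ ρ A _ hM₁ hN₂ hI e6 p hpA hpM hpN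
  have hre : 1 / 2 ≤ (τ₁ ⟨p, hpM⟩).re := by
    rw [t2]
    have e1 : ⟪ξ, p ξ⟫_ℂ = 1 - ((‖(1 - p) ξ‖ ^ 2 : ℝ) : ℂ) := by
      have a1 : ⟪ξ, (1 - p) ξ⟫_ℂ = ⟪(1 - p) ξ, (1 - p) ξ⟫_ℂ := by
        have hs : star (1 - p) = 1 - p := by rw [star_sub, star_one, hps]
        have hq : (1 - p) * (1 - p) = 1 - p := by
          rw [mul_sub, mul_one, sub_mul, one_mul, hpp, sub_self, sub_zero]
        rw [← ContinuousLinearMap.adjoint_inner_right, ← ContinuousLinearMap.star_eq_adjoint, hs]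
        have := congrArg (fun T : H₁ →L[ℂ] H₁ => T ξ) hq
        rw [show (1 - p) ((1 - p) ξ) = (1 - p) ξ from this]
      have a2 : ⟪ξ, p ξ⟫_ℂ = ⟪ξ, ξ⟫_ℂ - ⟪ξ, (1 - p) ξ⟫_ℂ := by
        rw [← inner_sub_right]; congr 1; simp
      rw [a2, a1, inner_self_eq_norm_sq_to_K, inner_self_eq_norm_sq_to_K, hξ]
      push_cast
      norm_num
    rw [e1, Complex.sub_re, Complex.one_re, Complex.ofReal_re]
    linarith
  obtain ⟨Φ⟩ := h7 H₁ M₁ N₂ τ₁ _ p hpM hpN φ φ' hM₁ hN₂ hps hpp t1 hre hφ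
  exact ⟨(θ.trans Φ).trans (κ.symm.trans θ'.symm)⟩

end Pool.Agent.W662.KKS
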